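import Pool.Agent.Helper68.Ucg.Defs

/-!
# The free group grading of an algebra with a diagonal

`fgr G` weakly grades `A` by the free group on the normalisers, with unit fibre `G.D`.
-/

set_option autoImplicit false

open scoped ComplexOrder

namespace Pool.Agent.Helper68.Ucg

open Pool.Agent.Helper39.Uct
open Pool.Agent.Helper10.Uct (closure_mul_mem closure_star_mem exists_alg)

variable {A : Type} [NonUnitalCStarAlgebra A]

/-- `n` or its adjoint. -/
def sgn (b : Bool) (n : A) : A := cond b n (star n)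

theorem sgn_not (b : Bool) (n : A) : sgn (!b) n = star (sgn b n) := by
  cases b <;> simp [sgn]

/-- Products along a word. -/
def WW (G : Diag A) : List (G.N × Bool) → Set A
  | [] => (G.D : Set A)
  | p :: L => {a | ∃ x ∈ G.D, ∃ y ∈ WW G L, a = x * sgn p.2 (p.1 : A) * y}

theorem sgn_mem (G : Diag A) (p : G.N × Bool) : sgn p.2 (p.1 : A) ∈ G.N := by
  obtain ⟨n, b⟩ := p
  cases b
  · exact G.N_star _ n.2
  · exact n.2

theorem conj_mem (G : Diag A) {n : A} (hn : n ∈ G.N) {x : A} (hx : x ∈ G.D) :
    star n * x * n ∈ G.D := G.N_conj n hn x hx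

theorem conj_mem' (G : Diag A) {n : A} (hn : n ∈ G.N) {x : A} (hx : x ∈ G.D) :
    n * x * star n ∈ G.D := by
  have := G.N_conj (star n) (G.N_star n hn) x hx
  rwa [star_star] at this

theorem D_WW (G : Diag A) (L : List (G.N × Bool)) {x y : A} (hx : x ∈ G.D) (hy : y ∈ WW G L) :
    x * y ∈ WW G L := by
  cases L with
  | nil => exact G.D_mul x hx y hy
  | cons p L =>
    obtain ⟨x', hx', y', hy', rfl⟩ := hy
    exact ⟨x * x', G.D_mul x hx x' hx', y', hy', by noncomm_ring⟩

theorem WW_append (G : Diag A) (L L' : List (G.N × Bool)) {x y : A} (hx : x ∈ WW G L)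
    (hy : y ∈ WW G L') : x * y ∈ WW G (L ++ L') := by
  induction L generalizing x with
  | nil => exact D_WW G L' hx hy
  | cons p L ih =>
    obtain ⟨x', hx', z, hz, rfl⟩ := hx
    exact ⟨x', hx', z * y, ih hz, by noncomm_ring⟩

theorem WW_append_mono (G : Diag A) (L M M' : List (G.N × Bool)) (h : WW G M ⊆ WW G M') :
    WW G (L ++ M) ⊆ WW G (L ++ M') := by
  induction L with
  | nil => exact h
  | cons p L ih =>
    rintro a ⟨x, hx, y, hy, rfl⟩
    exact ⟨x, hx, y, ih hy, rfl⟩

theorem WW_step (G : Diag A) {L L' : List (G.N × Bool)} (h : FreeGroup.Red.Step L L') :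
    WW G L ⊆ WW G L' := by
  cases h with
  | not =>
    rename_i L₁ L₂ x b
    refine WW_append_mono G L₁ _ _ ?_
    rintro a ⟨u, hu, y, ⟨v, hv, z, hz, rfl⟩, rfl⟩
    have h1 : sgn b (x : A) * v * sgn (!b) (x : A) ∈ G.D := by
      rw [sgn_not]
      exact conj_mem' G (sgn_mem G (x, b)) hv
    have h2 : u * (sgn b (x : A) * v * sgn (!b) (x : A)) ∈ G.D := G.D_mul u hu _ h1
    have h3 := D_WW G L₂ h2 hz
    convert h3 using 1
    simp only [mul_assoc]

theorem WW_red (G : Diag A) {L L' : List (G.N × Bool)} (h : FreeGroup.Red L L') :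
    WW G L ⊆ WW G L' := by
  induction h with
  | refl => exact subset_rfl
  | tail _ hs ih => exact ih.trans (WW_step G hs)

theorem WW_snoc (G : Diag A) (L : List (G.N × Bool)) (p : G.N × Bool) {y u : A}
    (hy : y ∈ WW G L) (hu : u ∈ G.D) : y * sgn p.2 (p.1 : A) * u ∈ WW G (L ++ [p]) := by
  induction L generalizing y with
  | nil => exact ⟨y, hy, u, hu, rfl⟩
  | cons q L ih =>
    obtain ⟨x, hx, z, hz, rfl⟩ := hy
    exact ⟨x, hx, z * sgn p.2 (p.1 : A) * u, ih hz, by noncomm_ring⟩

theorem WW_star (G : Diag A) (L : List (G.N × Bool)) {x : A} (hx : x ∈ WW G L) :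
    star x ∈ WW G (FreeGroup.invRev L) := by
  induction L generalizing x with
  | nil => exact G.D_star x hx
  | cons p L ih =>
    obtain ⟨u, hu, y, hy, rfl⟩ := hx
    have e : FreeGroup.invRev (p :: L) = FreeGroup.invRev L ++ [(p.1, !p.2)] := by
      simp [FreeGroup.invRev]
    rw [e, star_mul, star_mul]
    have h := WW_snoc G (FreeGroup.invRev L) (p.1, !p.2) (ih hy) (G.D_star u hu)
    convert h using 1
    rw [show sgn (p.1, !p.2).2 ((p.1, !p.2).1 : A) = star (sgn p.2 (p.1 : A)) from
      sgn_not p.2 (p.1 : A)]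
    noncomm_ring

/-- The diagonal as a subalgebra. -/
def dAlg (G : Diag A) : NonUnitalStarSubalgebra ℂ A where
  carrier := G.D
  add_mem' := fun ha hb => G.D.add_mem ha hb
  zero_mem' := G.D.zero_mem
  mul_mem' := fun {a b} ha hb => G.D_mul a ha b hb
  smul_mem' := fun c x hx => G.D.smul_mem c hx
  star_mem' := fun {a} ha => G.D_star a ha

/-- Approximate units. -/
theorem exists_unit (G : Diag A) (s : Finset A) (hs : ∀ n ∈ s, n ∈ G.N) (ε : ℝ) (hε : 0 < ε) :
    ∃ e ∈ G.D, IsSelfAdjoint e ∧ ‖e‖ ≤ 1 ∧ ∀ n ∈ s, ‖e * n - n‖ < ε :=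
  exists_au (dAlg G) G.closed s (fun n hn => by
    have := G.N_norm (star n) (G.N_star n (hs n hn))
    rwa [star_star] at this) ε hε

/-- Elements of `N` are limits of products with elements of `D` on both sides. -/
theorem mem_closure_mul (G : Diag A) {n : A} (hn : n ∈ G.N) :
    n ∈ (Submodule.span ℂ (WW G [(⟨n, hn⟩, true)])).topologicalClosure := by
  change n ∈ closure _
  rw [Metric.mem_closure_iff]
  intro ε hε
  classical
  obtain ⟨e, he, hsa, hn1, h⟩ := exists_unit G {n, star n}
    (by
      intro m hm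
      rcases Finset.mem_insert.1 hm with rfl | hm
      · exact hn
      · rw [Finset.mem_singleton.1 hm]
        exact G.N_star n hn) (ε / 2) (by positivity)
  have h1 : ‖e * n - n‖ < ε / 2 := h n (by simp)
  have h2 : ‖n * e - n‖ < ε / 2 := by
    have := h (star n) (by simp)
    rwa [show e * star n - star n = star (n * e - n) by
      rw [star_sub, star_mul, hsa.star_eq], norm_star] at this
  refine ⟨e * n * e, Submodule.subset_span ⟨e, he, e, he, rfl⟩, ?_⟩
  rw [dist_comm, dist_eq_norm]
  have h3 : e * n * e - n = (e * n - n) * e + (n * e - n) := by noncomm_ring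
  calc ‖e * n * e - n‖ = ‖(e * n - n) * e + (n * e - n)‖ := by rw [h3]
    _ ≤ ‖(e * n - n) * e‖ + ‖n * e - n‖ := norm_add_le _ _
    _ ≤ ‖e * n - n‖ * ‖e‖ + ‖n * e - n‖ := by gcongr; exact norm_mul_le _ _
    _ ≤ ‖e * n - n‖ * 1 + ‖n * e - n‖ := by gcongr
    _ < ε := by linarith

open Classical in
/-- The grading by the free group on the normalisers. -/
noncomputable def fgr (G : Diag A) : Fib (FreeGroup G.N) A where
  fib w := (Submodule.span ℂ (WW G w.toWord)).topologicalClosure
  closed w := Submodule.isClosed_topologicalClosure _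
  mul_mem p q x y hx hy := by
    refine closure_mul_mem _ _ _ (Submodule.isClosed_topologicalClosure _) ?_ x hx y hy
    intro x hx y hy
    refine Submodule.le_topologicalClosure _ (Submodule.subset_span ?_)
    rw [FreeGroup.toWord_mul]
    exact WW_red G FreeGroup.reduce.red (WW_append G _ _ hx hy)
  star_mem q x hx := by
    rw [FreeGroup.toWord_inv]
    exact closure_star_mem _ _ (fun x hx => WW_star G _ hx) x hx
  dense := by
    rw [eq_top_iff, ← G.dense]
    refine Submodule.topologicalClosure_mono (Submodule.span_le.2 ?_)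
    intro n hn
    refine Submodule.mem_iSup_of_mem (FreeGroup.of ⟨n, hn⟩) ?_
    rw [FreeGroup.toWord_of]
    exact mem_closure_mul G hn

open Classical in
theorem fgr_one (G : Diag A) : (fgr G).fib 1 = G.D := by
  show (Submodule.span ℂ (WW G (1 : FreeGroup G.N).toWord)).topologicalClosure = G.D
  rw [FreeGroup.toWord_one]
  show (Submodule.span ℂ (G.D : Set A)).topologicalClosure = G.D
  rw [Submodule.span_eq]
  exact IsClosed.submodule_topologicalClosure_eq G.closed

open Classical in
theorem mem_fgr (G : Diag A) {n : A} (hn : n ∈ G.N) :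
    n ∈ (fgr G).fib (FreeGroup.of ⟨n, hn⟩) := by
  show n ∈ (Submodule.span ℂ (WW G (FreeGroup.of _).toWord)).topologicalClosure
  rw [FreeGroup.toWord_of]
  exact mem_closure_mul G hn

theorem fgr_comm {G : Diag A} (h : G.Comm) : (fgr G).Comm := by
  intro x hx y hy
  rw [fgr_one] at hx hy
  exact h x hx y hy

/-- The points of an algebra with a commutative diagonal. -/
abbrev Diag.Pt (G : Diag A) := (fgr G).Pt

end Pool.Agent.Helper68.Ucg
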