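import Pool.Agent.Helper39.Uct.Main3

/-!
# Diagonals with finite isotropy

Definitions for the theorem on nuclear quotients of C*-algebras of Fell bundles over Hausdorff
étale groupoids with finite isotropy.
-/

open scoped ComplexOrder

namespace Pool.Agent.Helper68.Ucg

open Pool.Agent.Helper39.Uct

/-- A diagonal of the C*-algebra `A`: a C*-subalgebra `D`, a multiplicative `*`-closed set `N`
of normalisers of `D` that contains `D` and spans a dense subspace, and a conditional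
expectation `E` onto `D` such that `E n` is the part of `n` over the units.  The (full or
reduced) C*-algebra of a Fell bundle over a Hausdorff étale groupoid is an example, with `D` the
sections over the unit space, `N` the sections over open bisections and `E` the restriction to
the unit space. -/
structure Diag (A : Type) [NonUnitalCStarAlgebra A] where
  D : Submodule ℂ A
  N : Set A
  E : A →ₗ[ℂ] A
  closed : IsClosed (D : Set A)
  D_mul : ∀ x ∈ D, ∀ y ∈ D, x * y ∈ D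
  D_star : ∀ x ∈ D, star x ∈ D
  D_sub : ∀ x ∈ D, x ∈ N
  N_mul : ∀ n ∈ N, ∀ m ∈ N, n * m ∈ N
  N_star : ∀ n ∈ N, star n ∈ N
  N_smul : ∀ (z : ℂ), ∀ n ∈ N, z • n ∈ N
  N_norm : ∀ n ∈ N, star n * n ∈ D
  N_conj : ∀ n ∈ N, ∀ x ∈ D, star n * x * n ∈ D
  dense : (Submodule.span ℂ N).topologicalClosure = ⊤
  E_mem : ∀ a, E a ∈ D
  E_id : ∀ x ∈ D, E x = x
  E_bound : ∀ a, ‖E a‖ ≤ ‖a‖
  E_star : ∀ a, E (star a) = star (E a)
  E_mul : ∀ x ∈ D, ∀ a, E (x * a) = x * E a
  E_unit : ∀ n ∈ N, ∀ x ∈ D, star (E n) * x * n = star (E n) * x * E n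

namespace Diag

variable {A : Type} [NonUnitalCStarAlgebra A]

/-- The diagonal is commutative. -/
def Comm (G : Diag A) : Prop := ∀ x ∈ G.D, ∀ y ∈ G.D, x * y = y * x

/-- `φ` is a positive functional of norm at most one on `A` whose restriction to `D` is a pure
state. -/
structure PureOn (G : Diag A) (φ : A →ₗ[ℂ] ℂ) : Prop where
  bound : ∀ b, ‖φ b‖ ≤ ‖b‖
  pos : ∀ b, 0 ≤ φ (star b * b)
  norm : ∀ ε : ℝ, 0 < ε → ∃ c ∈ G.D, ‖c‖ ≤ 1 ∧ 1 - ε ≤ ‖φ c‖
  pure : ∀ ω : A →ₗ[ℂ] ℂ, (∀ c ∈ G.D, 0 ≤ ω (star c * c) ∧ ω (star c * c) ≤ φ (star c * c)) →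
    ∃ t : ℂ, ∀ c ∈ G.D, ω c = t * φ c

/-- `n` is a normaliser that fixes the pure state `φ`. -/
def Fixes (G : Diag A) (φ : A →ₗ[ℂ] ℂ) (n : A) : Prop :=
  n ∈ G.N ∧ φ (star n * n) = 1 ∧ ∀ c ∈ G.D, φ (star n * c * n) = φ c

/-- The stabilisers of the pure states of the diagonal are finite: among `k + 1` normalisers
that fix `φ` there are two that agree at `φ`. -/
def FinStab (G : Diag A) : Prop :=
  ∀ φ : A →ₗ[ℂ] ℂ, PureOn G φ → ∃ k : ℕ, ∀ n : Fin (k + 1) → A, (∀ i, G.Fixes φ (n i)) →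
    ∃ i j, i ≠ j ∧ φ (G.E (star (n i) * n j)) ≠ 0

end Diag

/-- `𝒞` contains the separable algebras of `𝒩` that have a commutative diagonal. -/
def DiagIn (𝒩 𝒞 : Cls) : Prop :=
  ∀ (A : Type) [NonUnitalCStarAlgebra A] [TopologicalSpace.SeparableSpace A], 𝒩 A →
    ∀ G : Diag A, G.Comm → 𝒞 A

/-- The permanence properties of the pair (nuclear, nuclear with UCT). -/
structure UctPermD (𝒩 𝒞 : Cls) : Prop where
  quot : QuotIn 𝒩
  sub : SubIn 𝒩
  diag : DiagIn 𝒩 𝒞
  ext : ExtIn 𝒞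
  union : UnionIn 𝒞
  hered : HeredIn 𝒞

end Pool.Agent.Helper68.Ucg
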