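import Pool.Agent.Helper68.Ucg.MNT

/-!
# FNG: the theorem from its parts
-/

set_option autoImplicit false

open scoped ComplexOrder

namespace Pool.Agent.Helper68.Ucg

open Pool.Agent.Helper39.Uct

/-- The trivial diagonal. -/
def trivDiag (A : Type) [NonUnitalCStarAlgebra A] : Diag A where
  D := ⊤
  N := Set.univ
  E := LinearMap.id
  closed := isClosed_univ
  D_mul _ _ _ _ := Submodule.mem_top
  D_star _ _ := Submodule.mem_top
  D_sub _ _ := Set.mem_univ _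
  N_mul _ _ _ _ := Set.mem_univ _
  N_star _ _ := Set.mem_univ _
  N_smul _ _ _ := Set.mem_univ _
  N_norm _ _ := Submodule.mem_top
  N_conj _ _ _ _ := Submodule.mem_top
  dense := by
    rw [Submodule.span_univ]
    exact IsClosed.submodule_topologicalClosure_eq isClosed_univ
  E_mem _ := Submodule.mem_top
  E_id _ _ := rfl
  E_bound _ := le_rfl
  E_star _ := rfl
  E_mul _ _ _ := rfl
  E_unit _ _ _ _ := rfl

/-- FNG. -/
theorem fng (hT : S_TYG) (hM : S_MNT) : S_FNG := by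
  intro 𝒩 𝒞 h B _ _ hB hW
  refine Pool.Agent.Helper75.Uct2.t_ZORN2 𝒞 (fun A => 𝒩 A ∧ WGD A) ?_ h.ext h.union ?_ ?_ B
    ⟨hB, hW⟩
  · intro A _ hA
    have hN : 𝒩 A := h.quot B A (0 : B →⋆ₙₐ[ℂ] A) (fun a => ⟨0, Subsingleton.elim _ _⟩) hB
    exact h.diag A hN (trivDiag A) (fun x _ y _ => Subsingleton.elim _ _)
  · intro A A' _ _ π hπ hA
    obtain ⟨A₁, _, G, π₁, A₀, _, ι₀, hF, hπ₁, hA₀, hr⟩ := hA.2
    refine ⟨h.quot A A' π hπ hA.1, A₁, inferInstance, G, π.comp π₁, A₀, inferInstance,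
      π.comp ι₀, hF, hπ.comp hπ₁, hA₀, ?_⟩
    have e1 : Set.range (π.comp ι₀) = π '' Set.range ι₀ := by
      rw [← Set.range_comp]
      rfl
    rw [e1, hr, Set.image_image]
    rfl
  · intro A _ _ hA hn
    obtain ⟨A₁, _, G, π₁, A₀, _, ι₀, hF, hπ₁, hA₀, hr⟩ := hA.2
    obtain ⟨H, _, ι, hι, hHn, A₂, _, G₂, π₂, hπ₂, hinj, hC, hFC⟩ :=
      hT A₁ A A₀ G π₁ ι₀ hπ₁ hA₀ hr hF hn
    obtain ⟨H', _, ι', hι', hHn', G', hC'⟩ := hM A₂ H G₂ π₂ hC hFC hπ₂ hinj hHn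
    have hcomp : Hered (ι.comp ι') := t_HT H' H A ι' ι hι' hι
    have hsep : TopologicalSpace.SeparableSpace H' :=
      Pool.Agent.Helper43.Uct.sep_of_inj (ι.comp ι') hcomp.1
    have hN' : 𝒩 H' := h.sub H' A (ι.comp ι') hcomp hA.1
    exact Pool.Agent.Helper27.Uct2.idl 𝒞 h.hered H' A (ι.comp ι') hcomp hHn'
      (h.diag H' hN' G' hC')

end Pool.Agent.Helper68.Ucg
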