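import Pool.Agent.Helper68.Ucg.XPN

/-!
# GDL and GDS
-/

set_option autoImplicit false

open scoped ComplexOrder

namespace Pool.Agent.Helper68.Ucg

open Pool.Agent.Helper39.Uct

theorem ne_of_pt {A : Type} [NonUnitalCStarAlgebra A] {G : Diag A} {x : A} (φ : G.Pt)
    (h : φ x ≠ 0) : x ≠ 0 := by
  rintro rfl
  exact h (map_zero _)

/-- GDL. -/
theorem gdl : S_GDL := by
  intro A _ G hG m n d u hK l hl c hc hdc
  have hd := hK.d_mem
  have hdcD := G.D_mul _ hd _ hc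
  have hll := G.N_norm l hl
  by_cases h1 : ∃ φ : G.Pt, φ (d * c) ≠ 0 ∧ Iso G φ l
  swap
  · push Not at h1
    refine ⟨star (d * c), G.D_star _ hdcD, ?_, Or.inr ?_⟩
    · intro h
      exact hdc ((CStarRing.mul_star_self_eq_zero_iff _).1 h)
    · intro φ hφ
      rw [d_mulL φ hdcD] at hφ
      exact h1 φ (left_ne_zero_of_mul hφ)
  obtain ⟨φ₀, hφ₀, hI₀⟩ := h1
  by_cases h2 : ∃ φ : G.Pt, φ (d * c) ≠ 0 ∧ ∃ i, φ (G.E (star (n i) * l)) ≠ 0
  · obtain ⟨φ, hφ, i, hi⟩ := h2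
    have hx : G.E (star (n i) * l) ∈ G.D := G.E_mem _
    have hxs := G.D_star _ hx
    refine ⟨_, G.D_mul _ hxs _ hx, ?_, Or.inl ?_⟩
    · refine ne_of_pt φ ?_
      rw [d_mulL φ hdcD, d_mulL φ hxs, d_herm]
      exact mul_ne_zero hφ (mul_ne_zero (star_ne_zero.2 hi) hi)
    · refine xpn A G hG m n d u hK l hl _ (Dd_mulR (mul_mem_Dd hc) (G.D_mul _ hxs _ hx)) ?_
      intro χ hχ _
      rw [d_mulL χ hdcD, d_mulL χ hd, d_mulL χ hxs] at hχ
      have hχd := left_ne_zero_of_mul (left_ne_zero_of_mul hχ)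
      have hχx := right_ne_zero_of_mul (right_ne_zero_of_mul hχ)
      exact eps_left' χ hG (hK.iso i χ hχd) hl hχx
  · push Not at h2
    have hc' := G.D_mul _ hc _ hll
    have hdc' : d * (c * (star l * l)) ≠ 0 := by
      refine ne_of_pt φ₀ ?_
      rw [← mul_assoc, d_mulL φ₀ hdcD]
      exact mul_ne_zero hφ₀ hI₀.2.1
    have h3 : ∃ φ : G.Pt, φ (d * (c * (star l * l))) ≠ 0 ∧ ¬ Iso G φ l := by
      by_contra hcon
      push Not at hcon
      obtain ⟨φ, hφ, i, hi⟩ := hK.max l hl _ hc' hdc' hcon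
      rw [← mul_assoc, d_mulL φ hdcD] at hφ
      exact hi (h2 φ (left_ne_zero_of_mul hφ) i)
    obtain ⟨φ, hφ, hnI⟩ := h3
    rw [← mul_assoc, d_mulL φ hdcD] at hφ
    have hφl := right_ne_zero_of_mul hφ
    have h4 : ∃ c₂ ∈ G.D, φ (star l * c₂ * l) ≠ φ c₂ * φ (star l * l) := by
      by_contra hcon
      push Not at hcon
      exact hnI ⟨hl, hφl, hcon⟩
    obtain ⟨c₂, hc₂, hne⟩ := h4
    have hmem : star l * c₂ * l - c₂ * (star l * l) ∈ G.D :=
      G.D.sub_mem (G.N_conj _ hl _ hc₂) (G.D_mul _ hc₂ _ hll)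
    have hval : ∀ χ : G.Pt, χ (star l * c₂ * l - c₂ * (star l * l)) =
        χ (star l * c₂ * l) - χ c₂ * χ (star l * l) := fun χ => by
      rw [map_sub, d_mulL χ hc₂]
    refine ⟨_, G.D_mul _ hll _ hmem, ?_, Or.inr ?_⟩
    · refine ne_of_pt φ ?_
      rw [d_mulL φ hdcD, d_mulL φ hll, hval]
      exact mul_ne_zero (left_ne_zero_of_mul hφ) (mul_ne_zero hφl (sub_ne_zero.2 hne))
    · intro χ hχ hI
      rw [d_mulL χ hdcD, d_mulL χ hll, hval] at hχ
      apply right_ne_zero_of_mul (right_ne_zero_of_mul hχ)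
      rw [hI.2.2 c₂ hc₂, sub_self]

/-- GDS. -/
theorem gds : S_GDS := by
  classical
  intro A _ G hG m n d u hK s
  induction s using Finset.induction_on with
  | empty =>
    intro _ c hc hdc
    have hdcD := G.D_mul _ hK.d_mem _ hc
    refine ⟨star (d * c), G.D_star _ hdcD, ?_, by simp⟩
    intro h
    exact hdc ((CStarRing.mul_star_self_eq_zero_iff _).1 h)
  | insert l s hls ih =>
    intro hs c hc hdc
    obtain ⟨c₁, hc₁, hne₁, h₁⟩ := ih (fun l hl => hs l (Finset.mem_insert_of_mem hl)) c hc hdc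
    have hcc := G.D_mul _ hc _ hc₁
    obtain ⟨c₂, hc₂, hne₂, h₂⟩ := gdl A G hG m n d u hK l (hs l (Finset.mem_insert_self _ _))
      (c * c₁) hcc (by rwa [← mul_assoc])
    have e : d * (c * c₁) * c₂ = d * c * (c₁ * c₂) := by noncomm_ring
    have e' : d * c * (c₁ * c₂) = (d * c * c₁) * c₂ := by noncomm_ring
    refine ⟨c₁ * c₂, G.D_mul _ hc₁ _ hc₂, by rwa [← e], ?_⟩
    intro l' hl'
    rcases Finset.mem_insert.1 hl' with rfl | hl'
    · rw [e] at h₂
      exact h₂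
    · rcases h₁ l' hl' with h | h
      · left
        rw [e', ← mul_assoc, h, mul_assoc, mul_assoc]
      · right
        intro φ hφ
        rw [e', d_mulR φ hc₂] at hφ
        exact h φ (left_ne_zero_of_mul hφ)

end Pool.Agent.Helper68.Ucg
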