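import Pool.Agent.Helper68.Ucg.Base

/-!
# Packets for the theorem on diagonals with finite isotropy

Paper proofs: `Pool/Agent/Helper68/Ucg/proof.md`.
-/

set_option autoImplicit false

open scoped ComplexOrder

namespace Pool.Agent.Helper68.Ucg

open Pool.Agent.Helper39.Uct

section defs

variable {A : Type} [NonUnitalCStarAlgebra A]

/-- `n` is a normaliser that fixes the point `φ`. -/
def Iso (G : Diag A) (φ : G.Pt) (n : A) : Prop :=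
  n ∈ G.N ∧ φ (star n * n) ≠ 0 ∧ ∀ c ∈ G.D, φ (star n * c * n) = φ c * φ (star n * n)

/-- Finite isotropy at the points (commutative diagonal). -/
def FinC (G : Diag A) : Prop :=
  ∀ φ : G.Pt, ∃ k : ℕ, ∀ n : Fin (k + 1) → A, (∀ i, Iso G φ (n i)) →
    ∃ i j, i ≠ j ∧ φ (G.E (star (n i) * n j)) ≠ 0

/-- The pointwise facts about normalisers. -/
structure NF (G : Diag A) : Prop where
  mulL : ∀ (φ : G.Pt), ∀ c ∈ G.D, ∀ b, φ (c * b) = φ c * φ b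
  mulR : ∀ (φ : G.Pt), ∀ c ∈ G.D, ∀ b, φ (b * c) = φ b * φ c
  null : ∀ (φ : G.Pt) b, φ (star b * b) = 0 → φ b = 0
  cs0 : ∀ (φ : G.Pt) a b, φ (star b * b) = 0 → φ (star a * b) = 0 ∧ φ (star b * a) = 0
  left : ∀ (φ : G.Pt) a y, φ (star y * y) = 0 → φ (star (a * y) * (a * y)) = 0
  move : ∀ (φ : G.Pt), ∀ n ∈ G.N, φ (star n * n) ≠ 0 →
    ∃ ψ : G.Pt, ∀ y, ψ y * φ (star n * n) = φ (star n * y * n)
  zero : ∀ c ∈ G.D, (∀ φ : G.Pt, φ c = 0) → c = 0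
  exact : ∀ y : A, star y * y ∈ G.D → (∀ φ : G.Pt, φ (star y * y) = 0) → y = 0
  iso_D : ∀ (φ : G.Pt), ∀ x ∈ G.D, φ x ≠ 0 → Iso G φ x
  iso_mul : ∀ (φ : G.Pt) n m, Iso G φ n → Iso G φ m → Iso G φ (n * m)
  iso_star : ∀ (φ : G.Pt) n, Iso G φ n → Iso G φ (star n)
  iso_val : ∀ (φ : G.Pt) n, Iso G φ n → φ (n * star n) = φ (star n * n)
  /-- `c n` and `φ(c) n` agree at `φ`. -/
  iso_comm : ∀ (φ : G.Pt) n, Iso G φ n → ∀ c ∈ G.D,
    φ (star (c * n - n * c) * (c * n - n * c)) = 0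
  iso_cancel : ∀ (φ : G.Pt) k n, Iso G φ k → n ∈ G.N → Iso G φ (k * n) → Iso G φ n
  eps : ∀ (φ : G.Pt), ∀ n ∈ G.N, φ (G.E n) ≠ 0 → Iso G φ n ∧
    φ (star n * n) = φ (star (G.E n) * G.E n) ∧ φ (star (n - G.E n) * (n - G.E n)) = 0
  eps_iso : ∀ (φ : G.Pt) n m, Iso G φ n → Iso G φ m → φ (G.E (star n * m)) ≠ 0 →
    φ (star (G.E (star n * m)) * G.E (star n * m)) = φ (star n * n) * φ (star m * m)
  eps_left : ∀ (φ : G.Pt) n, Iso G φ n → ∀ m ∈ G.N, φ (G.E (star n * m)) ≠ 0 → Iso G φ m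
  eps_symm : ∀ (φ : G.Pt), ∀ n ∈ G.N, ∀ m ∈ G.N, φ (G.E (star n * m)) ≠ 0 →
    φ (G.E (star m * n)) ≠ 0
  eps_trans : ∀ (φ : G.Pt), ∀ n ∈ G.N, ∀ m ∈ G.N, ∀ l ∈ G.N, φ (G.E (star n * m)) ≠ 0 →
    φ (G.E (star m * l)) ≠ 0 → φ (star l * l) ≠ 0 → φ (G.E (star n * l)) ≠ 0
  /-- Points vanish on the normalisers that move them. -/
  van : ∀ (φ : G.Pt), ∀ n ∈ G.N, ¬ Iso G φ n → φ n = 0

/-- There are `m` normalisers that fix all points of the support of `d` and are pairwise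
different there. -/
def Fam (G : Diag A) (d : A) (m : ℕ) : Prop :=
  ∃ n : Fin m → A, ∀ φ : G.Pt, φ d ≠ 0 → (∀ i, Iso G φ (n i)) ∧
    ∀ i j, i ≠ j → φ (G.E (star (n i) * n j)) = 0

/-- A maximal normalised family on the support of `d`: the interior of the isotropy over the
support of `d` is given by the `n i`. -/
structure KD (G : Diag A) {m : ℕ} (n : Fin m → A) (d u : A) : Prop where
  d_mem : d ∈ G.D
  d_sa : IsSelfAdjoint d
  d_ne : d ≠ 0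
  u_mem : u ∈ G.D
  u_d : u * d = d
  iso : ∀ i (φ : G.Pt), φ d ≠ 0 → Iso G φ (n i)
  unit : ∀ i, star (n i) * n i * d = d
  neq : ∀ i j, i ≠ j → G.E (star (n i) * n j) * d = 0
  max : ∀ l ∈ G.N, ∀ c ∈ G.D, d * c ≠ 0 → (∀ φ : G.Pt, φ (d * c) ≠ 0 → Iso G φ l) →
    ∃ φ : G.Pt, φ (d * c) ≠ 0 ∧ ∃ i, φ (G.E (star (n i) * l)) ≠ 0

/-- The elements of the diagonal supported in the support of `d`. -/
def Dd (G : Diag A) (d : A) : Submodule ℂ A :=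
  (Submodule.map (LinearMap.mulLeft ℂ d) G.D).topologicalClosure

/-- The algebra of the interior isotropy over the support of `d`. -/
def RR (G : Diag A) {m : ℕ} (n : Fin m → A) (d : A) : Submodule ℂ A where
  carrier := {a | ∃ x : Fin m → A, (∀ i, x i ∈ Dd G d) ∧ a = ∑ i, n i * x i}
  add_mem' := by
    rintro a b ⟨x, hx, rfl⟩ ⟨y, hy, rfl⟩
    exact ⟨fun i => x i + y i, fun i => (Dd G d).add_mem (hx i) (hy i), by
      simp [mul_add, Finset.sum_add_distrib]⟩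
  zero_mem' := ⟨fun _ => 0, fun _ => (Dd G d).zero_mem, by simp⟩
  smul_mem' := by
    rintro z a ⟨x, hx, rfl⟩
    exact ⟨fun i => z • x i, fun i => (Dd G d).smul_mem z (hx i), by
      simp [Finset.smul_sum, mul_smul_comm]⟩

/-- The part over the interior isotropy. -/
def kap (G : Diag A) {m : ℕ} (n : Fin m → A) : A →ₗ[ℂ] A :=
  ∑ i, (LinearMap.mulLeft ℂ (n i)).comp (G.E.comp (LinearMap.mulLeft ℂ (star (n i))))

theorem kap_apply (G : Diag A) {m : ℕ} (n : Fin m → A) (a : A) :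
    kap G n a = ∑ i, n i * G.E (star (n i) * a) := by
  simp [kap, LinearMap.sum_apply]

/-- Facts about `RR` and `kap`. -/
structure KF (G : Diag A) {m : ℕ} (n : Fin m → A) (d : A) : Prop where
  comm : ∀ i, ∀ x ∈ Dd G d, x * n i = n i * x
  closed : IsClosed (RR G n d : Set A)
  mul : ∀ a ∈ RR G n d, ∀ b ∈ RR G n d, a * b ∈ RR G n d
  star : ∀ a ∈ RR G n d, star a ∈ RR G n d
  cent : ∀ x ∈ G.D, ∀ a ∈ RR G n d, x * a ∈ RR G n d ∧ x * a = a * x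
  Dd_le : Dd G d ≤ RR G n d
  coord : ∀ x : Fin m → A, (∀ i, x i ∈ Dd G d) → ∀ j,
    G.E (Star.star (n j) * ∑ i, n i * x i) = x j
  kap_id : ∀ a ∈ RR G n d, kap G n a = a
  kap_mem : ∀ a, ∀ c ∈ Dd G d, kap G n a * c ∈ RR G n d
  kap_right : ∀ a, ∀ x ∈ G.D, kap G n (a * x) = kap G n a * x
  kap_left : ∀ a, ∀ c ∈ Dd G d, kap G n (c * a) = c * kap G n a ∧ c * kap G n a ∈ RR G n d
  kap_zero : ∀ l ∈ G.N, ∀ c ∈ Dd G d, (∀ φ : G.Pt, φ c ≠ 0 → ¬ Iso G φ l) →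
    kap G n l * c = 0
  kap_bound : ∃ C : ℝ, ∀ a, ‖kap G n a‖ ≤ C * ‖a‖

/-- The data for the final corner of `B`, a quotient of `A` by `π`. -/
structure CNR {B : Type} [NonUnitalCStarAlgebra B] (G : Diag A) {m : ℕ} (n : Fin m → A)
    (d u : A) (π : A →⋆ₙₐ[ℂ] B) (g : A) (e : B) : Prop where
  comm : G.Comm
  kd : KD G n d u
  surj : Function.Surjective π
  inj : ∀ x ∈ G.D, π x = 0 → x = 0
  g_mem : g ∈ Dd G d
  g_sa : IsSelfAdjoint g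
  /-- Elements that vanish on a dense set vanish on the support of `g`. -/
  sing : ∀ a ∈ RR G n d,
    (∀ c ∈ G.D, d * c ≠ 0 → ∃ c' ∈ G.D, d * c * c' ≠ 0 ∧ π (a * (d * c * c')) = 0) →
    π (a * g) = 0
  e_sa : IsSelfAdjoint e
  e_ne : e ≠ 0
  e_mem : e ∈ closure {b : B | ∃ r ∈ RR G n d, b = π g * π r * π g}
  e_comm : ∀ x ∈ RR G n d, ∀ y ∈ RR G n d,
    (e * π x * e) * (e * π y * e) = (e * π y * e) * (e * π x * e)

end defs

/-! ## Packets in the algebra upstairs -/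

/-- NF: the pointwise facts. -/
def S_NF : Prop := ∀ (A : Type) [NonUnitalCStarAlgebra A] (G : Diag A), G.Comm → NF G

/-- MAX: a maximal family of different normalisers fixing an open set of points. -/
def S_MAX : Prop := ∀ (A : Type) [NonUnitalCStarAlgebra A] (G : Diag A), G.Comm → FinC G →
  Nontrivial A → ∃ d ∈ G.D, IsSelfAdjoint d ∧ d ≠ 0 ∧ ∃ m, Fam G d m ∧
    ∀ c ∈ G.D, d * c ≠ 0 → ¬ Fam G (d * c) (m + 1)

/-- NRK: normalisation. -/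
def S_NRK : Prop := ∀ (A : Type) [NonUnitalCStarAlgebra A] (G : Diag A), G.Comm → FinC G →
  Nontrivial A → ∃ (m : ℕ) (n : Fin m → A) (d u : A), KD G n d u

/-- CMM: elements supported in the support of `d` commute with the family. -/
def S_CMM : Prop := ∀ (A : Type) [NonUnitalCStarAlgebra A] (G : Diag A), G.Comm →
  ∀ (m : ℕ) (n : Fin m → A) (d u : A), KD G n d u → ∀ i, ∀ x ∈ Dd G d,
  x ∈ G.D ∧ x * n i = n i * x

/-- XPN: a normaliser that fixes the support of `c` is given by the family there. -/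
def S_XPN : Prop := ∀ (A : Type) [NonUnitalCStarAlgebra A] (G : Diag A), G.Comm →
  ∀ (m : ℕ) (n : Fin m → A) (d u : A), KD G n d u → ∀ l ∈ G.N, ∀ c ∈ Dd G d,
  (∀ φ : G.Pt, φ c ≠ 0 → φ (star l * l) ≠ 0 → Iso G φ l) → l * c = kap G n l * c

/-- GDL: every normaliser is decided on a smaller open set. -/
def S_GDL : Prop := ∀ (A : Type) [NonUnitalCStarAlgebra A] (G : Diag A), G.Comm →
  ∀ (m : ℕ) (n : Fin m → A) (d u : A), KD G n d u → ∀ l ∈ G.N, ∀ c ∈ G.D, d * c ≠ 0 →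
  ∃ c' ∈ G.D, d * c * c' ≠ 0 ∧ (l * (d * c * c') = kap G n l * (d * c * c') ∨
    ∀ φ : G.Pt, φ (d * c * c') ≠ 0 → ¬ Iso G φ l)

/-- GDS: finitely many normalisers are decided on a smaller open set. -/
def S_GDS : Prop := ∀ (A : Type) [NonUnitalCStarAlgebra A] (G : Diag A), G.Comm →
  ∀ (m : ℕ) (n : Fin m → A) (d u : A), KD G n d u → ∀ s : Finset A, (∀ l ∈ s, l ∈ G.N) →
  ∀ c ∈ G.D, d * c ≠ 0 → ∃ c' ∈ G.D, d * c * c' ≠ 0 ∧ ∀ l ∈ s,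
    l * (d * c * c') = kap G n l * (d * c * c') ∨
      ∀ φ : G.Pt, φ (d * c * c') ≠ 0 → ¬ Iso G φ l

/-- KFF: the facts about `RR` and `kap`. -/
def S_KF : Prop := ∀ (A : Type) [NonUnitalCStarAlgebra A] (G : Diag A), G.Comm →
  ∀ (m : ℕ) (n : Fin m → A) (d u : A), KD G n d u → KF G n d

/-- SLC: moving `RR` past a normaliser. -/
def S_SLC : Prop := ∀ (A : Type) [NonUnitalCStarAlgebra A] (G : Diag A), G.Comm →
  ∀ (m : ℕ) (n : Fin m → A) (d u : A), KD G n d u → ∀ s ∈ RR G n d, ∀ w ∈ G.N,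
  ∀ y ∈ Dd G d, s * w * y ∈ closure {a | ∃ r ∈ RR G n d, a = w * r}

/-- ORT: orthogonality. -/
def S_ORT : Prop := ∀ (A : Type) [NonUnitalCStarAlgebra A] (G : Diag A), G.Comm →
  ∀ (m : ℕ) (n : Fin m → A) (d u : A), KD G n d u → ∀ l ∈ G.N, ∀ s ∈ RR G n d,
  star (kap G n l) * s * (l - kap G n l) = 0

/-! ## Packets in the quotient -/

/-- SNG: on some open set no element of the image of `RR` has nowhere dense support. -/
def S_SNG : Prop := ∀ (A B : Type) [NonUnitalCStarAlgebra A] [NonUnitalCStarAlgebra B]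
  (G : Diag A) (π : A →⋆ₙₐ[ℂ] B), G.Comm → (∀ x ∈ G.D, π x = 0 → x = 0) →
  ∀ (m : ℕ) (n : Fin m → A) (d u : A), KD G n d u →
  ∃ g ∈ Dd G d, IsSelfAdjoint g ∧ g ≠ 0 ∧ ∀ a ∈ RR G n d,
    (∀ c ∈ G.D, d * c ≠ 0 → ∃ c' ∈ G.D, d * c * c' ≠ 0 ∧ π (a * (d * c * c')) = 0) →
    π (a * g) = 0

/-- ABE: an abelian element. -/
def S_ABE : Prop := ∀ (A B : Type) [NonUnitalCStarAlgebra A] [NonUnitalCStarAlgebra B]
  (G : Diag A) (π : A →⋆ₙₐ[ℂ] B), G.Comm → (∀ x ∈ G.D, π x = 0 → x = 0) →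
  ∀ (m : ℕ) (n : Fin m → A) (d u : A), KD G n d u →
  ∀ g ∈ Dd G d, IsSelfAdjoint g → g ≠ 0 → ∃ e : B, IsSelfAdjoint e ∧ e ≠ 0 ∧
    e ∈ closure {b : B | ∃ r ∈ RR G n d, b = π g * π r * π g} ∧
    ∀ x ∈ RR G n d, ∀ y ∈ RR G n d,
      (e * π x * e) * (e * π y * e) = (e * π y * e) * (e * π x * e)

/-- PCL: the image of `RR` is closed. -/
def S_PCL : Prop := ∀ (A B : Type) [NonUnitalCStarAlgebra A] [NonUnitalCStarAlgebra B]
  (G : Diag A) (π : A →⋆ₙₐ[ℂ] B), G.Comm →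
  ∀ (m : ℕ) (n : Fin m → A) (d u : A), KD G n d u → IsClosed (π '' (RR G n d : Set A))

/-- NSP: nonzero elements of the corner do not vanish on a dense set. -/
def S_NSP : Prop := ∀ (A B : Type) [NonUnitalCStarAlgebra A] [NonUnitalCStarAlgebra B]
  (G : Diag A) (π : A →⋆ₙₐ[ℂ] B) (m : ℕ) (n : Fin m → A) (d u g : A) (e : B),
  CNR G n d u π g e → ∀ a ∈ RR G n d, π a ≠ 0 → π a ∈ closure {b : B | ∃ w, b = w * e} →
  ∃ c ∈ G.D, d * c ≠ 0 ∧ ∀ c' ∈ G.D, d * c * c' ≠ 0 → π (a * (d * c * c')) ≠ 0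

/-- CEX: the projection of the corner is contractive. -/
def S_CEX : Prop := ∀ (A B : Type) [NonUnitalCStarAlgebra A] [NonUnitalCStarAlgebra B]
  (G : Diag A) (π : A →⋆ₙₐ[ℂ] B) (m : ℕ) (n : Fin m → A) (d u g : A) (e : B),
  CNR G n d u π g e → ∀ a : A, ‖e * π (kap G n a) * e‖ ≤ ‖e * π a * e‖

/-- EPR: algebraic identities for the projection of the corner. -/
def S_EPR : Prop := ∀ (A B : Type) [NonUnitalCStarAlgebra A] [NonUnitalCStarAlgebra B]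
  (G : Diag A) (π : A →⋆ₙₐ[ℂ] B) (m : ℕ) (n : Fin m → A) (d u g : A) (e : B),
  CNR G n d u π g e →
    (∀ a : A, e * π (kap G n (star a)) * e = star (e * π (kap G n a) * e)) ∧
    (∀ t ∈ RR G n d, ∀ a : A, e * π (kap G n (t * a)) * e = e * π t * π (kap G n a) * e) ∧
    ∀ t ∈ RR G n d, ∀ a : A, e * π (kap G n (a * t)) * e = e * π (kap G n a) * π t * e

/-- HDG: the corner has a commutative diagonal. -/
def S_HDG : Prop := ∀ (A B : Type) [NonUnitalCStarAlgebra A] [NonUnitalCStarAlgebra B]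
  (G : Diag A) (π : A →⋆ₙₐ[ℂ] B) (m : ℕ) (n : Fin m → A) (d u g : A) (e : B),
  CNR G n d u π g e → ∃ (H : Type) (_ : NonUnitalCStarAlgebra H) (ι : H →⋆ₙₐ[ℂ] B),
    Hered ι ∧ Nontrivial H ∧ ∃ G' : Diag H, G'.Comm

/-- MNT: the main theorem for commutative diagonals. -/
def S_MNT : Prop := ∀ (A B : Type) [NonUnitalCStarAlgebra A] [NonUnitalCStarAlgebra B]
  (G : Diag A) (π : A →⋆ₙₐ[ℂ] B), G.Comm → FinC G → Function.Surjective π →
  (∀ x ∈ G.D, π x = 0 → x = 0) → Nontrivial B →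
  ∃ (H : Type) (_ : NonUnitalCStarAlgebra H) (ι : H →⋆ₙₐ[ℂ] B),
    Hered ι ∧ Nontrivial H ∧ ∃ G' : Diag H, G'.Comm

/-! ## Reduction to commutative diagonals -/

/-- QED: pushing the diagonal forward until `π` is injective on it. -/
def S_QED : Prop := ∀ (A B : Type) [NonUnitalCStarAlgebra A] [NonUnitalCStarAlgebra B]
  (G : Diag A) (π : A →⋆ₙₐ[ℂ] B), Function.Surjective π →
  ∃ (A₁ : Type) (_ : NonUnitalCStarAlgebra A₁) (q : A →⋆ₙₐ[ℂ] A₁) (π₁ : A₁ →⋆ₙₐ[ℂ] B)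
    (G₁ : Diag A₁), Function.Surjective q ∧ (∀ a, π₁ (q a) = π a) ∧
    (∀ x ∈ G₁.D, π₁ x = 0 → x = 0) ∧ (∀ y, y ∈ G₁.D ↔ ∃ x ∈ G.D, q x = y) ∧
    (∀ y, y ∈ G₁.N ↔ ∃ x ∈ G.N, q x = y) ∧ ∀ a, G₁.E (q a) = q (G.E a)

/-- CDD: the diagonal of a corner. -/
def S_CDD : Prop := ∀ (A : Type) [NonUnitalCStarAlgebra A] (G : Diag A) (a : A), a ∈ G.D →
  IsSelfAdjoint a → a ≠ 0 →
  ∃ (H : Type) (_ : NonUnitalCStarAlgebra H) (ι : H →⋆ₙₐ[ℂ] A), Hered ι ∧ Nontrivial H ∧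
    Set.range ι = closure {x | ∃ y, x = a * y * a} ∧
    ∃ G' : Diag H, (∀ h, h ∈ G'.D ↔ ι h ∈ G.D) ∧ (∀ h, h ∈ G'.N ↔ ι h ∈ G.N) ∧
      ∀ h, ι (G'.E h) = G.E (ι h)

/-- FSQ: finite stabilisers pass to quotients. -/
def S_FSQ : Prop := ∀ (A A₁ : Type) [NonUnitalCStarAlgebra A] [NonUnitalCStarAlgebra A₁]
  (G : Diag A) (G₁ : Diag A₁) (q : A →⋆ₙₐ[ℂ] A₁), Function.Surjective q →
  (∀ y, y ∈ G₁.D ↔ ∃ x ∈ G.D, q x = y) → (∀ y, y ∈ G₁.N ↔ ∃ x ∈ G.N, q x = y) →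
  (∀ a, G₁.E (q a) = q (G.E a)) → G.FinStab → G₁.FinStab

/-- FSC: finite stabilisers of a corner with commutative diagonal. -/
def S_FSC : Prop := ∀ (A H : Type) [NonUnitalCStarAlgebra A] [NonUnitalCStarAlgebra H]
  (G : Diag A) (G' : Diag H) (ι : H →⋆ₙₐ[ℂ] A), Hered ι →
  (∀ h, h ∈ G'.D ↔ ι h ∈ G.D) → (∀ h, h ∈ G'.N ↔ ι h ∈ G.N) →
  (∀ h, ι (G'.E h) = G.E (ι h)) → G'.Comm → G.FinStab → FinC G'

/-- TYG: reduction to commutative diagonals. -/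
def S_TYG : Prop := ∀ (A B A₀ : Type) [NonUnitalCStarAlgebra A] [NonUnitalCStarAlgebra B]
  [NonUnitalCStarAlgebra A₀] (G : Diag A) (π : A →⋆ₙₐ[ℂ] B) (ι₀ : A₀ →⋆ₙₐ[ℂ] B),
  Function.Surjective π → IsTypeI A₀ → Set.range ι₀ = π '' (G.D : Set A) → G.FinStab →
  Nontrivial B →
  ∃ (H : Type) (_ : NonUnitalCStarAlgebra H) (ι : H →⋆ₙₐ[ℂ] B), Hered ι ∧ Nontrivial H ∧
    ∃ (A₂ : Type) (_ : NonUnitalCStarAlgebra A₂) (G₂ : Diag A₂) (π₂ : A₂ →⋆ₙₐ[ℂ] H),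
      Function.Surjective π₂ ∧ (∀ x ∈ G₂.D, π₂ x = 0 → x = 0) ∧ G₂.Comm ∧ FinC G₂

/-- Quotients of algebras with a diagonal with finite stabilisers whose image is type I. -/
def WGD (B : Type) [NonUnitalCStarAlgebra B] : Prop :=
  ∃ (A : Type) (_ : NonUnitalCStarAlgebra A) (G : Diag A) (π : A →⋆ₙₐ[ℂ] B)
    (A₀ : Type) (_ : NonUnitalCStarAlgebra A₀) (ι₀ : A₀ →⋆ₙₐ[ℂ] B), G.FinStab ∧
    Function.Surjective π ∧ IsTypeI A₀ ∧ Set.range ι₀ = π '' (G.D : Set A)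

/-- FNG: the theorem. -/
def S_FNG : Prop := ∀ (𝒩 𝒞 : Cls), UctPermD 𝒩 𝒞 →
  ∀ (B : Type) [NonUnitalCStarAlgebra B] [TopologicalSpace.SeparableSpace B], 𝒩 B →
    WGD B → 𝒞 B

end Pool.Agent.Helper68.Ucg
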