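import Pool.Agent.Helper68.Ucg.Goals

/-!
# Assembly: the main theorem for commutative diagonals
-/

set_option autoImplicit false

open scoped ComplexOrder

namespace Pool.Agent.Helper68.Ucg

open Pool.Agent.Helper39.Uct

theorem nontrivial_of_surj {A B : Type} [NonUnitalCStarAlgebra A] [NonUnitalCStarAlgebra B]
    (π : A →⋆ₙₐ[ℂ] B) (hπ : Function.Surjective π) [Nontrivial B] : Nontrivial A := by
  obtain ⟨x, y, hxy⟩ := exists_pair_ne B
  obtain ⟨a, rfl⟩ := hπ x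
  obtain ⟨b, rfl⟩ := hπ y
  exact ⟨a, b, fun h => hxy (by rw [h])⟩

theorem mnt (hNRK : S_NRK) (hSNG : S_SNG) (hABE : S_ABE) (hHDG : S_HDG) : S_MNT := by
  intro A B _ _ G π hC hF hπ hinj hB
  haveI := hB
  have hA : Nontrivial A := nontrivial_of_surj π hπ
  obtain ⟨m, n, d, u, hK⟩ := hNRK A G hC hF hA
  obtain ⟨g, hg, hgsa, hg0, hsing⟩ := hSNG A B G π hC hinj m n d u hK
  obtain ⟨e, hesa, he0, hemem, hecomm⟩ := hABE A B G π hC hinj m n d u hK g hg hgsa hg0
  exact hHDG A B G π m n d u g e ⟨hC, hK, hπ, hinj, hg, hgsa, hsing, hesa, he0, hemem, hecomm⟩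

end Pool.Agent.Helper68.Ucg
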