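import Pool.Agent.Helper68.Ucg.XPN

/-!
# ORT, PCL, NSP
-/

set_option autoImplicit false

open scoped ComplexOrder

namespace Pool.Agent.Helper68.Ucg

open Pool.Agent.Helper39.Uct

section

variable {A : Type} [NonUnitalCStarAlgebra A] {G : Diag A}

theorem KD.unit'' (hG : G.Comm) {m : ℕ} {n : Fin m → A} {d u : A} (hK : KD G n d u)
    (i : Fin m) {x : A} (hx : x ∈ Dd G d) : n i * star (n i) * x = x := by
  have hn := hK.n_mem hG i
  have hxD := Dd_le_D hK.d_mem hx
  rw [← sub_eq_zero]
  refine d_zero hG (G.D.sub_mem (G.D_mul _ (mulstar_mem G hn) _ hxD) hxD) fun φ => ?_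
  rw [map_sub, d_mulR φ hxD]
  by_cases h : φ x = 0
  · rw [h, mul_zero, sub_self]
  · have hφ := Dd_ne hK.d_mem hx h
    rw [iso_val' φ (hK.iso i φ hφ), hK.val hG i hφ, one_mul, sub_self]

theorem KD.commStar (hG : G.Comm) {m : ℕ} {n : Fin m → A} {d u : A} (hK : KD G n d u)
    (i : Fin m) {x : A} (hx : x ∈ Dd G d) : x * star (n i) = star (n i) * x := by
  have h := (cmm A G hG m n d u hK i _ (Dd_star hG hK.d_mem hK.d_sa hx)).2
  have h' := congrArg star h
  simpa using h'.symm

theorem xpn_mem (hG : G.Comm) {m : ℕ} {n : Fin m → A} {d u : A} (hK : KD G n d u) {l : A}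
    (hl : l ∈ G.N) (hI : ∀ φ : G.Pt, φ d ≠ 0 → Iso G φ l) {c : A} (hc : c ∈ Dd G d) :
    l * c ∈ RR G n d := by
  rw [xpn A G hG m n d u hK l hl c hc fun φ h _ => hI φ (Dd_ne hK.d_mem hc h)]
  refine ⟨fun i => G.E (star (n i) * l) * c, fun i => Dd_mulL hG hK.d_mem hc (G.E_mem _), ?_⟩
  rw [kap_apply, Finset.sum_mul]
  simp only [mul_assoc]

theorem ort_aux (hG : G.Comm) {m : ℕ} {n : Fin m → A} {d u : A} (hK : KD G n d u) {l : A}
    (hl : l ∈ G.N) (i : Fin m) {z : A} (hz : z ∈ Dd G d) :
    z * star (G.E (star (n i) * l)) * (l - kap G n l) = 0 := by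
  have hx : ∀ j, G.E (star (n j) * l) ∈ G.D := fun j => G.E_mem _
  have hxs := G.D_star _ (hx i)
  have hw : z * star (G.E (star (n i) * l)) ∈ Dd G d := Dd_mulR hz hxs
  have h1 : star (G.E (star (n i) * l)) * (star (n i) * l) =
      star (G.E (star (n i) * l)) * G.E (star (n i) * l) := by
    have h := congrArg star (e_unit_one G (G.N_mul _ (G.N_star _ (hK.n_mem hG i)) _ hl))
    simpa using h
  have h2 : z * star (G.E (star (n i) * l)) * l =
      n i * (z * (star (G.E (star (n i) * l)) * G.E (star (n i) * l))) := by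
    calc z * star (G.E (star (n i) * l)) * l
        = n i * star (n i) * (z * star (G.E (star (n i) * l))) * l := by
          rw [hK.unit'' hG i hw]
      _ = n i * (star (n i) * (z * star (G.E (star (n i) * l)))) * l := by noncomm_ring
      _ = n i * ((z * star (G.E (star (n i) * l))) * star (n i)) * l := by
          rw [hK.commStar hG i hw]
      _ = n i * (z * (star (G.E (star (n i) * l)) * (star (n i) * l))) := by noncomm_ring
      _ = _ := by rw [h1]
  have h3 : z * star (G.E (star (n i) * l)) * kap G n l =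
      n i * (z * (star (G.E (star (n i) * l)) * G.E (star (n i) * l))) := by
    rw [kap_apply, Finset.mul_sum, Finset.sum_eq_single i]
    · rw [← mul_assoc, (cmm A G hG m n d u hK i _ hw).2]
      noncomm_ring
    · intro j _ hji
      rw [← mul_assoc, (cmm A G hG m n d u hK j _ hw).2, mul_assoc]
      suffices h : z * star (G.E (star (n i) * l)) * G.E (star (n j) * l) = 0 by
        rw [h, mul_zero]
      refine d_zero hG (G.D_mul _ (Dd_le_D hK.d_mem hw) _ (hx j)) fun φ => ?_
      rw [d_mulR φ (hx j), d_mulR φ hxs, d_herm]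
      by_cases h0 : φ z = 0
      · rw [h0]; simp
      · have hφ := Dd_ne hK.d_mem hz h0
        by_cases hi : φ (G.E (star (n i) * l)) = 0
        · rw [hi]; simp
        · rw [hK.one hG hl hφ hji.symm hi]; simp
    · intro h
      exact absurd (Finset.mem_univ i) h
  rw [mul_sub, h2, h3, sub_self]

end

/-- ORT. -/
theorem ort (hKF : S_KF) : S_ORT := by
  intro A _ G hG m n d u hK l hl s hs
  have hF := hKF A G hG m n d u hK
  obtain ⟨y, hy, rfl⟩ := hs
  rw [kap_apply, star_sum, Finset.sum_mul, Finset.sum_mul]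
  refine Finset.sum_eq_zero fun i _ => ?_
  have hr : star (n i) * ∑ j, n j * y j ∈ RR G n d := by
    rw [Finset.mul_sum]
    refine (RR G n d).sum_mem fun j _ => ?_
    rw [← mul_assoc]
    exact xpn_mem hG hK (G.N_mul _ (G.N_star _ (hK.n_mem hG i)) _ (hK.n_mem hG j))
      (fun φ hφ => iso_mul' φ (iso_star' φ (hK.iso i φ hφ)) (hK.iso j φ hφ)) (hy j)
  have h1 := (hF.cent _ (G.D_star _ (G.E_mem (star (n i) * l))) _ hr).2
  obtain ⟨z, hz, hz'⟩ := hr
  have h2 : star (n i * G.E (star (n i) * l)) * (∑ j, n j * y j) * (l - kap G n l) =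
      ∑ j, n j * (z j * star (G.E (star (n i) * l)) * (l - kap G n l)) := by
    calc star (n i * G.E (star (n i) * l)) * (∑ j, n j * y j) * (l - kap G n l)
        = (star (G.E (star (n i) * l)) * (star (n i) * ∑ j, n j * y j)) *
            (l - kap G n l) := by rw [star_mul]; noncomm_ring
      _ = ((star (n i) * ∑ j, n j * y j) * star (G.E (star (n i) * l))) *
            (l - kap G n l) := by rw [h1]
      _ = (∑ j, n j * z j) * star (G.E (star (n i) * l)) * (l - kap G n l) := by rw [hz']
      _ = _ := by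
          rw [Finset.sum_mul, Finset.sum_mul]
          exact Finset.sum_congr rfl fun j _ => by noncomm_ring
  rw [← kap_apply, h2]
  exact Finset.sum_eq_zero fun j _ => by rw [ort_aux hG hK hl i (hz j), mul_zero]

/-- PCL. -/
theorem pcl (hKF : S_KF) : S_PCL := by
  intro A B _ _ G π hG m n d u hK
  have hF := hKF A G hG m n d u hK
  obtain ⟨D, _, ι, -, hι⟩ := Pool.Agent.Helper10.Uct.exists_alg (RR G n d) hF.closed hF.mul
    hF.star
  have h := t_RC D B (π.comp ι)
  have e : Set.range (π.comp ι) = π '' (RR G n d : Set A) := by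
    rw [← hι, ← Set.range_comp]
    rfl
  rwa [e] at h

/-- NSP. -/
theorem nsp : S_NSP := by
  intro A B _ _ G π m n d u g e hC a ha hne hcl
  by_contra hcon
  push Not at hcon
  have h1 : π (a * g) = 0 := hC.sing a ha (by
    intro c hc hdc
    exact hcon c hc hdc)
  rw [map_mul] at h1
  have h2 : π a * e = 0 := by
    have hcl2 : IsClosed {b : B | π a * b = 0} :=
      isClosed_eq (continuous_const.mul continuous_id) continuous_const
    refine closure_minimal ?_ hcl2 hC.e_mem
    rintro b ⟨r, hr, rfl⟩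
    change π a * (π g * π r * π g) = 0
    rw [← mul_assoc, ← mul_assoc, h1, zero_mul, zero_mul]
  have h3 : π a * star (π a) = 0 := by
    have hcl3 : IsClosed {b : B | π a * star b = 0} :=
      isClosed_eq (continuous_const.mul continuous_star) continuous_const
    refine closure_minimal ?_ hcl3 hcl
    rintro b ⟨w, rfl⟩
    change π a * star (w * e) = 0
    rw [star_mul, hC.e_sa.star_eq, ← mul_assoc, h2, zero_mul]
  exact hne ((CStarRing.mul_star_self_eq_zero_iff _).1 h3)

end Pool.Agent.Helper68.Ucg
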