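import Pool.Agent.Helper68.Ucg.NF

/-!
# CMM and XPN
-/

set_option autoImplicit false

open scoped ComplexOrder

namespace Pool.Agent.Helper68.Ucg

open Pool.Agent.Helper39.Uct

section

variable {A : Type} [NonUnitalCStarAlgebra A] {G : Diag A}

theorem Dd_le_D {d : A} (hd : d ∈ G.D) {x : A} (hx : x ∈ Dd G d) : x ∈ G.D := by
  have : Dd G d ≤ G.D := by
    refine Submodule.topologicalClosure_minimal _ ?_ G.closed
    rintro y ⟨c, hc, rfl⟩
    exact G.D_mul d hd c hc
  exact this hx

theorem mul_mem_Dd {d : A} {c : A} (hc : c ∈ G.D) : d * c ∈ Dd G d :=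
  Submodule.le_topologicalClosure _ ⟨c, hc, rfl⟩

theorem Dd_mulR {d : A} {x : A} (hx : x ∈ Dd G d) {c : A} (hc : c ∈ G.D) :
    x * c ∈ Dd G d := by
  have hcl : IsClosed {x : A | x * c ∈ Dd G d} :=
    (Submodule.isClosed_topologicalClosure _).preimage (continuous_id.mul continuous_const)
  refine closure_minimal (s := (Submodule.map (LinearMap.mulLeft ℂ d) G.D : Set A)) ?_ hcl hx
  rintro y ⟨c', hc', rfl⟩
  change d * c' * c ∈ Dd G d
  rw [mul_assoc]
  exact mul_mem_Dd (G.D_mul _ hc' _ hc)

theorem Dd_mulL (hG : G.Comm) {d : A} (hd : d ∈ G.D) {x : A} (hx : x ∈ Dd G d) {c : A}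
    (hc : c ∈ G.D) : c * x ∈ Dd G d := by
  rw [hG c hc x (Dd_le_D hd hx)]
  exact Dd_mulR hx hc

theorem Dd_star (hG : G.Comm) {d : A} (hd : d ∈ G.D) (hsa : IsSelfAdjoint d) {x : A}
    (hx : x ∈ Dd G d) : star x ∈ Dd G d := by
  have hcl : IsClosed {x : A | star x ∈ Dd G d} :=
    (Submodule.isClosed_topologicalClosure _).preimage continuous_star
  refine closure_minimal (s := (Submodule.map (LinearMap.mulLeft ℂ d) G.D : Set A)) ?_ hcl hx
  rintro y ⟨c', hc', rfl⟩
  change star (d * c') ∈ Dd G d
  rw [star_mul, hsa.star_eq, hG _ (G.D_star _ hc') _ hd]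
  exact mul_mem_Dd (G.D_star _ hc')

theorem Dd_ne {d : A} (hd : d ∈ G.D) {x : A} (hx : x ∈ Dd G d) {φ : G.Pt} (h : φ x ≠ 0) :
    φ d ≠ 0 := by
  intro h0
  apply h
  have hcl : IsClosed {x : A | φ x = 0} :=
    isClosed_eq (pt_cont φ) continuous_const
  refine closure_minimal (s := (Submodule.map (LinearMap.mulLeft ℂ d) G.D : Set A)) ?_ hcl hx
  rintro y ⟨c', hc', rfl⟩
  change φ (d * c') = 0
  rw [d_mulL φ hd, h0, zero_mul]

theorem exists_pt (hG : G.Comm) {d : A} (hd : d ∈ G.D) (h : d ≠ 0) : ∃ φ : G.Pt, φ d ≠ 0 := by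
  by_contra hcon
  push Not at hcon
  exact h (d_zero hG hd hcon)

theorem KD.n_mem (hG : G.Comm) {m : ℕ} {n : Fin m → A} {d u : A} (hK : KD G n d u) (i : Fin m) :
    n i ∈ G.N := by
  obtain ⟨φ, hφ⟩ := exists_pt hG hK.d_mem hK.d_ne
  exact (hK.iso i φ hφ).1

theorem KD.val (hG : G.Comm) {m : ℕ} {n : Fin m → A} {d u : A} (hK : KD G n d u) (i : Fin m)
    {φ : G.Pt} (hφ : φ d ≠ 0) : φ (star (n i) * n i) = 1 := by
  have h := congrArg φ.toFun (hK.unit i)
  change φ _ = φ _ at h
  rw [d_mulR φ hK.d_mem] at h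
  exact mul_right_cancel₀ hφ (by rw [h, one_mul])

/-- CMM. -/
theorem cmm : S_CMM := by
  intro A _ G hG m n d u hK i x hx
  have hxD := Dd_le_D hK.d_mem hx
  have hxs := G.D_star _ hxD
  refine ⟨hxD, ?_⟩
  have hn := hK.n_mem hG i
  have e : star (x * n i - n i * x) * (x * n i - n i * x) =
      star (n i) * (star x * x) * n i - (star (n i) * star x * n i) * x -
        star x * (star (n i) * x * n i) + star x * ((star (n i) * n i) * x) := by
    rw [star_sub, star_mul, star_mul]; noncomm_ring
  have hz : star (x * n i - n i * x) * (x * n i - n i * x) ∈ G.D := by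
    rw [e]
    exact G.D.add_mem (G.D.sub_mem (G.D.sub_mem (G.N_conj _ hn _ (G.D_mul _ hxs _ hxD))
      (G.D_mul _ (G.N_conj _ hn _ hxs) _ hxD)) (G.D_mul _ hxs _ (G.N_conj _ hn _ hxD)))
      (G.D_mul _ hxs _ (G.D_mul _ (G.N_norm _ hn) _ hxD))
  have h0 : ∀ φ : G.Pt, φ (star (x * n i - n i * x) * (x * n i - n i * x)) = 0 := by
    intro φ
    by_cases hφ : φ d = 0
    · have hx0 : φ x = 0 := by
        by_contra h
        exact Dd_ne hK.d_mem hx h hφ
      have hxs0 : φ (star x) = 0 := by rw [d_herm, hx0, star_zero]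
      have t1 : φ (star (n i) * (star x * x) * n i) = 0 := by
        by_cases hnn : φ (star (n i) * n i) = 0
        · have := pt_left φ x (n i) hnn
          rw [star_mul] at this
          rw [← this]
          congr 1
          noncomm_ring
        · obtain ⟨ψ, hψ⟩ := d_move φ hG hn hnn
          have hψx : ψ x = 0 := by
            by_contra hx1
            have hd1 := Dd_ne hK.d_mem hx hx1
            have hI := iso_star' ψ (hK.iso i ψ hd1)
            have hag : ∀ c ∈ G.D, φ c = (ψ (n i * star (n i)) / φ (star (n i) * n i)) * ψ c := by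
              intro c hc
              have h1 := hI.2.2 c hc
              rw [star_star] at h1
              have h2 := hψ (n i * c * star (n i))
              have e2 : star (n i) * (n i * c * star (n i)) * n i =
                  (star (n i) * n i) * (c * (star (n i) * n i)) := by noncomm_ring
              rw [e2, d_mulL φ (G.N_norm _ hn), d_mulL φ hc, h1] at h2
              have h3 : (ψ c * ψ (n i * star (n i))) * φ (star (n i) * n i) =
                  (φ (star (n i) * n i) * φ c) * φ (star (n i) * n i) := by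
                rw [h2]; ring
              have h4 := mul_right_cancel₀ hnn h3
              field_simp
              linear_combination -h4
            rw [← d_agree hag hK.d_mem] at hd1
            exact hd1 hφ
          rw [← hψ, d_mulR ψ hxD, hψx, mul_zero, zero_mul]
      rw [e, map_add, map_sub, map_sub, t1, d_mulR φ hxD, d_mulL φ hxs, d_mulL φ hxs, hx0,
        hxs0]
      ring
    · exact iso_comm' φ (hK.iso i φ hφ) hxD
  have := (CStarRing.star_mul_self_eq_zero_iff _).1 (d_zero hG hz h0)
  exact sub_eq_zero.1 this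

theorem e_unit_one (G : Diag A) {n : A} (hn : n ∈ G.N) :
    star n * G.E n = star (G.E n) * G.E n := by
  rw [← sub_eq_zero, ← norm_le_zero_iff]
  refine le_of_forall_pos_le_add fun ε hε => ?_
  have hc := G.E_mem n
  set C : ℝ := ‖n‖ + ‖G.E n‖ + 1 with hC
  have hCpos : 0 < C := by positivity
  obtain ⟨e, he, -, -, h⟩ := exists_unit G {G.E n} (by
    intro m hm
    rw [Finset.mem_singleton.1 hm]
    exact G.D_sub _ hc) (ε / C) (by positivity)
  have h1 : ‖e * G.E n - G.E n‖ < ε / C := h _ (by simp)
  have h2 := e_unit' G hn he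
  have h3 : star n * G.E n - star (G.E n) * G.E n =
      star (G.E n) * (e * G.E n - G.E n) - star n * (e * G.E n - G.E n) := by
    rw [mul_sub, mul_sub, ← mul_assoc, ← mul_assoc, h2]
    abel
  rw [h3]
  calc ‖star (G.E n) * (e * G.E n - G.E n) - star n * (e * G.E n - G.E n)‖
      ≤ ‖star (G.E n) * (e * G.E n - G.E n)‖ + ‖star n * (e * G.E n - G.E n)‖ :=
        norm_sub_le _ _
    _ ≤ ‖star (G.E n)‖ * ‖e * G.E n - G.E n‖ + ‖star n‖ * ‖e * G.E n - G.E n‖ := by
        gcongr <;> exact norm_mul_le _ _
    _ = (‖n‖ + ‖G.E n‖) * ‖e * G.E n - G.E n‖ := by rw [norm_star, norm_star]; ring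
    _ ≤ C * (ε / C) := by gcongr; linarith
    _ = 0 + ε := by field_simp; ring

theorem KD.unit' {m : ℕ} {n : Fin m → A} {d u : A} (hK : KD G n d u) (i : Fin m) {x : A}
    (hx : x ∈ Dd G d) : star (n i) * n i * x = x := by
  have hcl : IsClosed {x : A | star (n i) * n i * x = x} :=
    isClosed_eq (continuous_const.mul continuous_id) continuous_id
  refine closure_minimal (s := (Submodule.map (LinearMap.mulLeft ℂ d) G.D : Set A)) ?_ hcl hx
  rintro y ⟨c', hc', rfl⟩
  change star (n i) * n i * (d * c') = d * c'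
  rw [← mul_assoc, hK.unit i]

/-- At most one of the `x_j` is nonzero. -/
theorem KD.one (hG : G.Comm) {m : ℕ} {n : Fin m → A} {d u : A} (hK : KD G n d u) {l : A}
    (hl : l ∈ G.N) {φ : G.Pt} (hφ : φ d ≠ 0) {i j : Fin m} (hij : i ≠ j)
    (hi : φ (G.E (star (n i) * l)) ≠ 0) : φ (G.E (star (n j) * l)) = 0 := by
  by_contra hj
  have h1 := eps_trans' φ hG (hK.n_mem hG i) hl (hK.n_mem hG j) hi
    (eps_symm' φ hj) (by rw [hK.val hG j hφ]; exact one_ne_zero)
  have h2 := congrArg φ.toFun (hK.neq i j hij)
  change φ _ = φ _ at h2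
  rw [d_mulR φ hK.d_mem, map_zero] at h2
  exact (mul_ne_zero h1 hφ) h2

/-- XPN. -/
theorem xpn : S_XPN := by
  intro A _ G hG m n d u hK l hl c hc H
  have hcD := Dd_le_D hK.d_mem hc
  have hcs := G.D_star _ hcD
  have hcx : ∀ j, G.E (star (n j) * l) * c ∈ Dd G d := fun j =>
    Dd_mulL hG hK.d_mem hc (G.E_mem _)
  have hll := G.N_norm l hl
  rw [kap_apply, ← sub_eq_zero, ← CStarRing.star_mul_self_eq_zero_iff]
  have hb : ∀ i j, i ≠ j → star (G.E (star (n i) * l) * c) * (G.E (star (n j) * l) * c) = 0 := by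
    intro i j hij
    refine d_zero hG (G.D_mul _ (G.D_star _ (G.D_mul _ (G.E_mem _) _ hcD)) _
      (G.D_mul _ (G.E_mem _) _ hcD)) fun φ => ?_
    rw [d_mulR φ (G.D_mul _ (G.E_mem _) _ hcD), d_herm, d_mulR φ hcD, d_mulR φ hcD]
    by_cases h0 : φ c = 0
    · rw [h0]; simp
    · have hφ := Dd_ne hK.d_mem hc h0
      by_cases hi : φ (G.E (star (n i) * l)) = 0
      · rw [hi]; simp
      · rw [hK.one hG hl hφ hij hi]; simp
  have hterm : ∀ j, star (l * c) * (n j * G.E (star (n j) * l) * c) =
      star c * (star (G.E (star (n j) * l)) * G.E (star (n j) * l)) * c := by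
    intro j
    have h1 := e_unit_one G (G.N_mul _ (G.N_star _ (hK.n_mem hG j)) _ hl)
    rw [star_mul, star_star] at h1
    calc star (l * c) * (n j * G.E (star (n j) * l) * c)
        = star c * (star l * n j * G.E (star (n j) * l)) * c := by
          rw [star_mul]; noncomm_ring
      _ = _ := by rw [h1]
  have hterm2 : ∀ i j, star (n i * G.E (star (n i) * l) * c) *
      (n j * G.E (star (n j) * l) * c) = if i = j then
        star c * (star (G.E (star (n i) * l)) * G.E (star (n i) * l)) * c else 0 := by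
    intro i j
    split_ifs with hij
    · subst hij
      calc star (n i * G.E (star (n i) * l) * c) * (n i * G.E (star (n i) * l) * c)
          = star (G.E (star (n i) * l) * c) *
              (star (n i) * n i * (G.E (star (n i) * l) * c)) := by
            rw [mul_assoc (n i), star_mul]; noncomm_ring
        _ = star (G.E (star (n i) * l) * c) * (G.E (star (n i) * l) * c) := by
            rw [hK.unit' i (hcx i)]
        _ = _ := by rw [star_mul]; noncomm_ring
    · have h1 := (cmm A G hG m n d u hK i _ (hcx i)).2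
      have h2 := (cmm A G hG m n d u hK j _ (hcx j)).2
      calc star (n i * G.E (star (n i) * l) * c) * (n j * G.E (star (n j) * l) * c)
          = star (n i * (G.E (star (n i) * l) * c)) * (n j * (G.E (star (n j) * l) * c)) := by
            rw [mul_assoc (n i), mul_assoc (n j)]
        _ = star (G.E (star (n i) * l) * c * n i) * (G.E (star (n j) * l) * c * n j) := by
            rw [h1, h2]
        _ = star (n i) * (star (G.E (star (n i) * l) * c) * (G.E (star (n j) * l) * c)) *
              n j := by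
            rw [star_mul (G.E (star (n i) * l) * c) (n i)]; noncomm_ring
        _ = 0 := by rw [hb i j hij, mul_zero, zero_mul]
  have hexp : star (l * c - (∑ i, n i * G.E (star (n i) * l)) * c) *
      (l * c - (∑ i, n i * G.E (star (n i) * l)) * c) =
      star c * (star l * l - ∑ i, star (G.E (star (n i) * l)) * G.E (star (n i) * l)) * c := by
    have hS : star (l * c) * ((∑ i, n i * G.E (star (n i) * l)) * c) =
        star c * (∑ i, star (G.E (star (n i) * l)) * G.E (star (n i) * l)) * c := by
      rw [Finset.sum_mul, Finset.mul_sum, Finset.mul_sum, Finset.sum_mul]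
      exact Finset.sum_congr rfl fun j _ => hterm j
    have hS' : star ((∑ i, n i * G.E (star (n i) * l)) * c) * (l * c) =
        star c * (∑ i, star (G.E (star (n i) * l)) * G.E (star (n i) * l)) * c := by
      have := congrArg star hS
      simp only [star_mul, star_sum, star_star] at this
      rw [star_mul, star_sum]
      simp only [star_mul, star_star]
      simpa [mul_assoc] using this
    have hT : star ((∑ i, n i * G.E (star (n i) * l)) * c) *
        ((∑ i, n i * G.E (star (n i) * l)) * c) =
        star c * (∑ i, star (G.E (star (n i) * l)) * G.E (star (n i) * l)) * c := by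
      rw [Finset.sum_mul, star_sum, Finset.sum_mul_sum, Finset.mul_sum, Finset.sum_mul]
      refine Finset.sum_congr rfl fun i _ => ?_
      simp only [hterm2]
      simp
    rw [star_sub, sub_mul, mul_sub, mul_sub, hS, hS', hT, star_mul, mul_sub, sub_mul]
    simp only [mul_assoc]
    abel
  have hsumD : (∑ i, star (G.E (star (n i) * l)) * G.E (star (n i) * l)) ∈ G.D :=
    G.D.sum_mem fun i _ => G.D_mul _ (G.D_star _ (G.E_mem _)) _ (G.E_mem _)
  have hmid := G.D.sub_mem hll hsumD
  rw [hexp]
  refine d_zero hG (G.D_mul _ (G.D_mul _ hcs _ hmid) _ hcD) fun φ => ?_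
  rw [d_mulR φ hcD, d_mulL φ hcs, map_sub, map_sum]
  by_cases h0 : φ c = 0
  · rw [h0, mul_zero]
  have hφ := Dd_ne hK.d_mem hc h0
  suffices hsuff : φ (star l * l) = ∑ i, φ (star (G.E (star (n i) * l)) *
      G.E (star (n i) * l)) by rw [hsuff, sub_self, mul_zero, zero_mul]
  have hsq : ∀ i, φ (star (G.E (star (n i) * l)) * G.E (star (n i) * l)) =
      star (φ (G.E (star (n i) * l))) * φ (G.E (star (n i) * l)) := fun i => by
    rw [d_mulL φ (G.D_star _ (G.E_mem _)), d_herm]
  by_cases h1 : φ (star l * l) = 0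
  · rw [h1, eq_comm]
    refine Finset.sum_eq_zero fun i _ => ?_
    have hx : φ (G.E (star (n i) * l)) = 0 := by
      by_contra hx
      have h2 := (eps' φ hG (G.N_mul _ (G.N_star _ (hK.n_mem hG i)) _ hl) hx).1.2.1
      exact h2 (pt_left φ _ _ h1)
    rw [hsq, hx, mul_zero]
  · have hI := H φ h0 h1
    by_cases h2 : ∃ j, φ (G.E (star (n j) * l)) ≠ 0
    · obtain ⟨j, hj⟩ := h2
      rw [Finset.sum_eq_single j]
      · rw [eps_iso' φ hG (hK.iso j φ hφ) hI hj, hK.val hG j hφ, one_mul]
      · intro i _ hij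
        rw [hsq, hK.one hG hl hφ hij.symm hj, mul_zero]
      · intro h
        exact absurd (Finset.mem_univ j) h
    · exfalso
      push Not at h2
      have key : ∀ s : Finset (Fin m), ∃ c₁ ∈ G.D, φ c₁ ≠ 0 ∧ ∀ χ : G.Pt, χ c₁ ≠ 0 →
          χ c ≠ 0 ∧ χ (star l * l) ≠ 0 ∧ ∀ j ∈ s, χ (G.E (star (n j) * l)) = 0 := by
        classical
        intro s
        induction s using Finset.induction_on with
        | empty =>
          refine ⟨c * (star l * l), G.D_mul _ hcD _ hll, ?_, ?_⟩
          · rw [d_mulL φ hcD]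
            exact mul_ne_zero h0 h1
          · intro χ hχ
            rw [d_mulL χ hcD] at hχ
            exact ⟨left_ne_zero_of_mul hχ, right_ne_zero_of_mul hχ, by simp⟩
        | insert j s hjs ih =>
          obtain ⟨c₁, hc₁, hφ₁, hall⟩ := ih
          have hy : (star l * l) * (star (n j) * n j) -
              star (G.E (star (n j) * l)) * G.E (star (n j) * l) ∈ G.D :=
            G.D.sub_mem (G.D_mul _ hll _ (G.N_norm _ (hK.n_mem hG j)))
              (G.D_mul _ (G.D_star _ (G.E_mem _)) _ (G.E_mem _))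
          have hval : ∀ χ : G.Pt, χ d ≠ 0 → χ ((star l * l) * (star (n j) * n j) -
              star (G.E (star (n j) * l)) * G.E (star (n j) * l)) =
              χ (star l * l) - χ (star (G.E (star (n j) * l)) * G.E (star (n j) * l)) := by
            intro χ hχ
            rw [map_sub, d_mulL χ hll, hK.val hG j hχ, mul_one]
          refine ⟨c₁ * _, G.D_mul _ hc₁ _ hy, ?_, ?_⟩
          · rw [d_mulL φ hc₁, hval φ hφ, hsq, h2 j, mul_zero, sub_zero]
            exact mul_ne_zero hφ₁ h1
          · intro χ hχ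
            rw [d_mulL χ hc₁] at hχ
            obtain ⟨hχc, hχl, hχs⟩ := hall χ (left_ne_zero_of_mul hχ)
            have hχd := Dd_ne hK.d_mem hc hχc
            refine ⟨hχc, hχl, ?_⟩
            intro i hi
            rcases Finset.mem_insert.1 hi with rfl | hi
            · by_contra hne
              apply right_ne_zero_of_mul hχ
              rw [hval χ hχd, eps_iso' χ hG (hK.iso i χ hχd) (H χ hχc hχl) hne,
                hK.val hG i hχd, one_mul, sub_self]
            · exact hχs i hi
      obtain ⟨c₁, hc₁, hφ₁, hall⟩ := key Finset.univ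
      have hdc : d * c₁ ≠ 0 := by
        intro h
        have : φ (d * c₁) = 0 := by rw [h, map_zero]
        rw [d_mulL φ hK.d_mem] at this
        exact mul_ne_zero hφ hφ₁ this
      obtain ⟨χ, hχ, i, hi⟩ := hK.max l hl c₁ hc₁ hdc (by
        intro χ hχ
        rw [d_mulL χ hK.d_mem] at hχ
        obtain ⟨hχc, hχl, -⟩ := hall χ (right_ne_zero_of_mul hχ)
        exact H χ hχc hχl)
      rw [d_mulL χ hK.d_mem] at hχ
      exact hi ((hall χ (right_ne_zero_of_mul hχ)).2.2 i (Finset.mem_univ i))

end

end Pool.Agent.Helper68.Ucg
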