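import Pool.Agent.Helper68.Ucg.NF
import Pool.Agent.Helper68.Ucg.XPN
import Pool.Agent.Helper68.Ucg.GDL
import Pool.Agent.Helper68.Ucg.ORT
import Pool.Agent.Helper68.Ucg.MNT
import Pool.Agent.Helper68.Ucg.FNG
import Pool.Agent.Helper96.Ucg.MAX
import Pool.Agent.Helper96.Ucg.CDD
import Pool.Agent.Helper96.Ucg.FSQ
import Pool.Agent.Helper5.Ucg.NRK
import Pool.Agent.Helper12.Ucg.SLC
import Pool.Agent.Helper12.Ucg.HDG
import Pool.Agent.Helper13.Ucg.SNG
import Pool.Agent.Helper29.Ucg.ABE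
import Pool.Agent.Helper89.Ucg.EPR
import Pool.Agent.Helper3.Ucg.QED
import Pool.Agent.Helper50.Ucg.CEX
import Pool.Agent.Helper62.Ucg.FSC
import Pool.Agent.Helper62.Ucg.KFF
import Pool.Agent.Helper67.Ucg.TYG

/-!
# The theorem on quotients of algebras with a diagonal with finite stabilisers

Written by helper68 with packets by helpers 3, 5, 12, 13, 29, 50, 62, 67, 89, 96.
-/

set_option autoImplicit false

open scoped ComplexOrder

namespace Pool.Agent.Helper68.Ucg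

open Pool.Agent.Helper39.Uct

theorem t_NRK : S_NRK := Pool.Agent.Helper5.Ucg.nrk Pool.Agent.Helper96.Ucg.maxFam

theorem t_KF : S_KF := Pool.Agent.Helper62.Ucg.kff cmm xpn

theorem t_SLC : S_SLC := Pool.Agent.Helper12.Ucg.slc nf t_KF xpn

theorem t_SNG : S_SNG := Pool.Agent.Helper13.Ucg.sng nf

theorem t_ABE : S_ABE := Pool.Agent.Helper29.Ucg.abe t_KF

theorem t_PCL : S_PCL := pcl t_KF

theorem t_CEX : S_CEX := Pool.Agent.Helper50.Ucg.cex nf t_KF gds t_PCL nsp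

theorem t_EPR : S_EPR := Pool.Agent.Helper89.Ucg.epr nf t_KF gds t_PCL nsp

theorem t_HDG : S_HDG :=
  Pool.Agent.Helper12.Ucg.hdg t_KF t_SLC (ort t_KF) t_PCL t_CEX t_EPR

theorem t_MNT : S_MNT := mnt t_NRK t_SNG t_ABE t_HDG

theorem t_TYG : S_TYG :=
  Pool.Agent.Helper67.Ucg.tyg Pool.Agent.Helper3.Ucg.qed Pool.Agent.Helper96.Ucg.cdd
    Pool.Agent.Helper96.Ucg.fsq Pool.Agent.Helper62.Ucg.fsc

theorem t_FNG : S_FNG := fng t_TYG t_MNT

end Pool.Agent.Helper68.Ucg
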