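import Pool.Agent.Helper68.Ucg.Goals

/-!
# Pointwise facts about normalisers
-/

set_option autoImplicit false

open scoped ComplexOrder

namespace Pool.Agent.Helper68.Ucg

open Pool.Agent.Helper39.Uct

section

variable {A : Type} [NonUnitalCStarAlgebra A] {G : Diag A} (φ : G.Pt)

theorem d_mulL {c : A} (hc : c ∈ G.D) (b : A) : φ (c * b) = φ c * φ b :=
  pt_mulL φ (by rw [fgr_one]; exact hc) b

theorem d_mulR {c : A} (hc : c ∈ G.D) (b : A) : φ (b * c) = φ b * φ c :=
  pt_mulR φ (by rw [fgr_one]; exact hc) b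

theorem d_one : ∃ h ∈ G.D, φ h = 1 := by
  obtain ⟨h, hh, h1⟩ := pt_exists_one φ
  rw [fgr_one] at hh
  exact ⟨h, hh, h1⟩

theorem d_herm (b : A) : φ (star b) = star (φ b) := pt_herm φ b

theorem d_zero (hG : G.Comm) {c : A} (hc : c ∈ G.D) (h : ∀ φ : G.Pt, φ c = 0) : c = 0 := by
  by_contra h0
  obtain ⟨ψ, hψ⟩ := Pool.Agent.Helper17.Uct.exists_phi t_PE (fgr_comm hG)
    (by rw [fgr_one]; exact hc) h0
  exact hψ (h ψ)

theorem d_move (hG : G.Comm) {n : A} (hn : n ∈ G.N) (h0 : φ (star n * n) ≠ 0) :
    ∃ ψ : G.Pt, ∀ y, ψ y * φ (star n * n) = φ (star n * y * n) :=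
  pt_move φ (fgr_comm hG) (mem_fgr G hn) h0

/-- Proportional points agree. -/
theorem d_agree {φ ψ : G.Pt} {t : ℂ} (h : ∀ c ∈ G.D, ψ c = t * φ c) {c : A} (hc : c ∈ G.D) :
    ψ c = φ c := by
  obtain ⟨e, he, h1⟩ := d_one ψ
  have h2 : t * φ e = 1 := by rw [← h e he, h1]
  have h3 : t * (φ e * φ e) = 1 := by
    rw [← d_mulL φ he, ← h _ (G.D_mul e he e he), d_mulL ψ he, h1, one_mul]
  have h4 : φ e = 1 := by
    have : t * (φ e * φ e) = (t * φ e) * φ e := by ring
    rw [h3, h2, one_mul] at this
    exact this.symm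
  rw [h4, mul_one] at h2
  rw [h c hc, h2, one_mul]

theorem mulstar_mem (G : Diag A) {n : A} (hn : n ∈ G.N) : n * star n ∈ G.D := by
  have := G.N_norm (star n) (G.N_star n hn)
  rwa [star_star] at this

theorem iso_D' {x : A} (hx : x ∈ G.D) (h : φ x ≠ 0) : Iso G φ x := by
  have hs := G.D_star x hx
  refine ⟨G.D_sub x hx, ?_, ?_⟩
  · rw [d_mulL φ hs, d_herm]
    exact mul_ne_zero (star_ne_zero.2 h) h
  · intro c hc
    rw [mul_assoc, d_mulL φ hs, d_mulL φ hc, d_mulL φ hs]
    ring

theorem iso_mul' {n m : A} (hn : Iso G φ n) (hm : Iso G φ m) : Iso G φ (n * m) := by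
  have e1 : star (n * m) * (n * m) = star m * (star n * n) * m := by
    rw [star_mul]; noncomm_ring
  have h1 : φ (star (n * m) * (n * m)) = φ (star n * n) * φ (star m * m) := by
    rw [e1, hm.2.2 _ (G.N_norm n hn.1)]
  refine ⟨G.N_mul n hn.1 m hm.1, ?_, ?_⟩
  · rw [h1]
    exact mul_ne_zero hn.2.1 hm.2.1
  · intro c hc
    have e2 : star (n * m) * c * (n * m) = star m * (star n * c * n) * m := by
      rw [star_mul]; noncomm_ring
    rw [h1, e2, hm.2.2 _ (G.N_conj n hn.1 c hc), hn.2.2 c hc]
    ring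

theorem iso_val' {n : A} (hn : Iso G φ n) : φ (n * star n) = φ (star n * n) := by
  have h1 := hn.2.2 _ (mulstar_mem G hn.1)
  have e : star n * (n * star n) * n = (star n * n) * (star n * n) := by noncomm_ring
  rw [e, d_mulL φ (G.N_norm n hn.1)] at h1
  exact (mul_right_cancel₀ hn.2.1 h1).symm

theorem iso_star' {n : A} (hn : Iso G φ n) : Iso G φ (star n) := by
  have hv := iso_val' φ hn
  refine ⟨G.N_star n hn.1, ?_, ?_⟩
  · rw [star_star, hv]
    exact hn.2.1
  · intro c hc
    rw [star_star, hv]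
    have h1 := hn.2.2 _ (conj_mem' G hn.1 hc)
    have e : star n * (n * c * star n) * n = (star n * n) * (c * (star n * n)) := by
      noncomm_ring
    rw [e, d_mulL φ (G.N_norm n hn.1), d_mulL φ hc] at h1
    have h2 : φ (n * c * star n) * φ (star n * n) =
        (φ c * φ (star n * n)) * φ (star n * n) := by
      rw [← h1]; ring
    exact mul_right_cancel₀ hn.2.1 h2

theorem iso_comm' {n : A} (hn : Iso G φ n) {c : A} (hc : c ∈ G.D) :
    φ (star (c * n - n * c) * (c * n - n * c)) = 0 := by
  have hs := G.D_star c hc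
  have e : star (c * n - n * c) * (c * n - n * c) =
      star n * (star c * c) * n - (star n * star c * n) * c - star c * (star n * c * n) +
        star c * ((star n * n) * c) := by
    rw [star_sub, star_mul, star_mul]; noncomm_ring
  have t1 : φ (star n * (star c * c) * n) = star (φ c) * φ c * φ (star n * n) := by
    rw [hn.2.2 _ (G.D_mul _ hs _ hc), d_mulL φ hs, d_herm]
  have t2 : φ ((star n * star c * n) * c) = star (φ c) * φ (star n * n) * φ c := by
    rw [d_mulR φ hc, hn.2.2 _ hs, d_herm]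
  have t3 : φ (star c * (star n * c * n)) = star (φ c) * (φ c * φ (star n * n)) := by
    rw [d_mulL φ hs, hn.2.2 c hc, d_herm]
  have t4 : φ (star c * ((star n * n) * c)) = star (φ c) * (φ (star n * n) * φ c) := by
    rw [d_mulL φ hs, d_mulR φ hc, d_herm]
  rw [e, map_add, map_sub, map_sub, t1, t2, t3, t4]
  ring

theorem iso_cancel' (hG : G.Comm) {k n : A} (hk : Iso G φ k) (hn : n ∈ G.N)
    (hkn : Iso G φ (k * n)) : Iso G φ n := by
  have h0 : φ (star n * n) ≠ 0 := fun h => hkn.2.1 (pt_left φ k n h)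
  obtain ⟨ψ, hψ⟩ := d_move φ hG hn h0
  have e1 : star (k * n) * (k * n) = star n * (star k * k) * n := by
    rw [star_mul]; noncomm_ring
  have h1 : φ (star (k * n) * (k * n)) = ψ (star k * k) * φ (star n * n) := by
    rw [e1, ← hψ]
  have hk0 : ψ (star k * k) ≠ 0 := by
    intro h
    rw [h, zero_mul] at h1
    exact hkn.2.1 h1
  have key : ∀ y ∈ G.D, ψ y = (φ (star k * k) / ψ (star k * k)) * φ y := by
    intro y hy
    have h2 := hkn.2.2 _ (conj_mem' G hk.1 hy)
    have e2 : star (k * n) * (k * y * star k) * (k * n) =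
        star n * ((star k * k) * (y * (star k * k))) * n := by
      rw [star_mul]; noncomm_ring
    have h3 : φ (k * y * star k) = φ y * φ (star k * k) := by
      have := (iso_star' φ hk).2.2 y hy
      rwa [star_star, iso_val' φ hk] at this
    rw [e2, ← hψ, d_mulL ψ (G.N_norm k hk.1), d_mulL ψ hy, h1, h3] at h2
    have h4 : (ψ (star k * k) * φ (star n * n)) * (ψ y * ψ (star k * k)) =
        (ψ (star k * k) * φ (star n * n)) * (φ y * φ (star k * k)) := by
      linear_combination h2
    have h5 := mul_left_cancel₀ (mul_ne_zero hk0 h0) h4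
    field_simp
    linear_combination h5
  refine ⟨hn, h0, fun c hc => ?_⟩
  rw [← hψ, d_agree key hc]

theorem e_unit' (G : Diag A) {n x : A} (hn : n ∈ G.N) (hx : x ∈ G.D) :
    star n * x * G.E n = star (G.E n) * x * G.E n := by
  have h := G.E_unit n hn (star x) (G.D_star x hx)
  have h' := congrArg star h
  simp only [star_mul, star_star] at h'
  simpa [mul_assoc] using h'

theorem e_unit'' (G : Diag A) {n x : A} (hn : n ∈ G.N) (hx : x ∈ G.D) :
    n * x * star (G.E n) = G.E n * x * star (G.E n) := by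
  have h := e_unit' G (G.N_star n hn) hx
  rwa [G.E_star, star_star, star_star] at h

theorem e_mulR (G : Diag A) {x : A} (hx : x ∈ G.D) (a : A) : G.E (a * x) = G.E a * x := by
  have h := G.E_mul (star x) (G.D_star x hx) (star a)
  have h' := congrArg star h
  rw [← G.E_star] at h'
  simpa [G.E_star] using h'

theorem eps' (hG : G.Comm) {n : A} (hn : n ∈ G.N) (h : φ (G.E n) ≠ 0) : Iso G φ n ∧
    φ (star n * n) = φ (star (G.E n) * G.E n) ∧ φ (star (n - G.E n) * (n - G.E n)) = 0 := by
  have hc := G.E_mem n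
  have hs := G.D_star _ hc
  obtain ⟨z, hz, h1⟩ := d_one φ
  have hn1 : φ n = φ (G.E n) := by
    have h2 := congrArg φ.toFun (G.E_unit n hn z hz)
    change φ _ = φ _ at h2
    have hsz := G.D_mul _ hs _ hz
    rw [d_mulL φ hsz, d_mulL φ hsz, d_mulL φ hs, h1, d_herm, mul_one] at h2
    exact mul_left_cancel₀ (star_ne_zero.2 h) h2
  have h0 : φ (star n * n) ≠ 0 := by
    intro h0
    exact h (by rw [← hn1]; exact pt_null φ h0)
  obtain ⟨ψ, hψ⟩ := d_move φ hG hn h0
  have key : ∀ w ∈ G.D, ψ w * ψ (G.E n) * φ (star n * n) =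
      star (φ (G.E n)) * φ (G.E n) * φ (G.E n) * φ w := by
    intro w hw
    have h2 : star n * (w * G.E n) * n = star (G.E n) * (w * (G.E n * n)) := by
      have := e_unit' G hn hw
      calc star n * (w * G.E n) * n = (star n * w * G.E n) * n := by noncomm_ring
        _ = (star (G.E n) * w * G.E n) * n := by rw [this]
        _ = star (G.E n) * (w * (G.E n * n)) := by noncomm_ring
    have h3 := hψ (w * G.E n)
    rw [h2, d_mulL ψ hw, d_mulL φ hs, d_mulL φ hw, d_mulL φ hc, d_herm, hn1] at h3
    rw [h3]; ring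
  have hl : star (φ (G.E n)) * φ (G.E n) * φ (G.E n) ≠ 0 :=
    mul_ne_zero (mul_ne_zero (star_ne_zero.2 h) h) h
  have hψc : ψ (G.E n) ≠ 0 := by
    intro h2
    have := key z hz
    rw [h2, h1, mul_zero, zero_mul, mul_one] at this
    exact hl this.symm
  have hag : ∀ w ∈ G.D, ψ w =
      (star (φ (G.E n)) * φ (G.E n) * φ (G.E n) / (ψ (G.E n) * φ (star n * n))) * φ w := by
    intro w hw
    have := key w hw
    field_simp
    linear_combination this
  have hag' : ∀ w ∈ G.D, ψ w = φ w := fun w hw => d_agree hag hw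
  have hval : φ (star n * n) = φ (star (G.E n) * G.E n) := by
    have := key z hz
    rw [hag' z hz, hag' _ hc, h1] at this
    rw [d_mulL φ hs, d_herm]
    have h4 : φ (G.E n) * φ (star n * n) = φ (G.E n) * (star (φ (G.E n)) * φ (G.E n)) := by
      linear_combination this
    exact mul_left_cancel₀ h h4
  refine ⟨⟨hn, h0, fun c hc => ?_⟩, hval, ?_⟩
  · rw [← hψ, hag' c hc]
  · have e : star (n - G.E n) * (n - G.E n) = star n * n - star n * G.E n -
        star (G.E n) * n + star (G.E n) * G.E n := by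
      rw [star_sub]; noncomm_ring
    have t1 : φ (star n * G.E n) = star (φ (G.E n)) * φ (G.E n) := by
      rw [d_mulR φ hc, d_herm, hn1]
    have t2 : φ (star (G.E n) * n) = star (φ (G.E n)) * φ (G.E n) := by
      rw [d_mulL φ hs, d_herm, hn1]
    have t3 : φ (star (G.E n) * G.E n) = star (φ (G.E n)) * φ (G.E n) := by
      rw [d_mulL φ hs, d_herm]
    rw [e, map_add, map_sub, map_sub, hval, t1, t2, t3]
    ring

theorem eps_left' (hG : G.Comm) {n m : A} (hn : Iso G φ n) (hm : m ∈ G.N)
    (h : φ (G.E (star n * m)) ≠ 0) : Iso G φ m := by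
  have h1 := (eps' φ hG (G.N_mul _ (G.N_star n hn.1) _ hm) h).1
  exact iso_cancel' φ hG (iso_star' φ hn) hm h1

theorem eps_iso' (hG : G.Comm) {n m : A} (hn : Iso G φ n) (hm : Iso G φ m)
    (h : φ (G.E (star n * m)) ≠ 0) :
    φ (star (G.E (star n * m)) * G.E (star n * m)) = φ (star n * n) * φ (star m * m) := by
  have h1 := (eps' φ hG (G.N_mul _ (G.N_star n hn.1) _ hm.1) h).2.1
  have e : star (star n * m) * (star n * m) = star m * (n * star n) * m := by
    rw [star_mul, star_star]; noncomm_ring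
  rw [← h1, e, hm.2.2 _ (mulstar_mem G hn.1), iso_val' φ hn]

theorem eps_symm' {n m : A} (h : φ (G.E (star n * m)) ≠ 0) :
    φ (G.E (star m * n)) ≠ 0 := by
  have e : G.E (star m * n) = star (G.E (star n * m)) := by
    rw [← G.E_star, star_mul, star_star]
  rw [e, d_herm]
  exact star_ne_zero.2 h

theorem eps_trans' (hG : G.Comm) {n m l : A} (hn : n ∈ G.N) (hm : m ∈ G.N) (hl : l ∈ G.N)
    (h1 : φ (G.E (star n * m)) ≠ 0) (h2 : φ (G.E (star m * l)) ≠ 0)
    (h3 : φ (star l * l) ≠ 0) : φ (G.E (star n * l)) ≠ 0 := by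
  obtain ⟨z, hz, hz1⟩ := d_one φ
  set x := G.E (star n * m) with hx
  set y := G.E (star m * l) with hy
  have hxD : x ∈ G.D := G.E_mem _
  have hyD : y ∈ G.D := G.E_mem _
  have hxs := G.D_star _ hxD
  have hys := G.D_star _ hyD
  have e1 : star x * z * (star n * m) = star x * z * x :=
    G.E_unit _ (G.N_mul _ (G.N_star n hn) _ hm) z hz
  have e2 : (star m * l) * z * star y = y * z * star y :=
    e_unit'' G (G.N_mul _ (G.N_star m hm) _ hl) hz
  have e3 : (star x * z) * ((star n * m * star m * l) * (z * star y)) =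
      (star x * z * x) * (y * z * star y) := by
    rw [← e1, ← e2]; noncomm_ring
  have hxz := G.D_mul _ hxs _ hz
  have hzy := G.D_mul _ hz _ hys
  have e4 := congrArg G.E e3
  rw [G.E_mul _ hxz, e_mulR G hzy, G.E_id _ (G.D_mul _ (G.D_mul _ hxz _ hxD) _
    (G.D_mul _ (G.D_mul _ hyD _ hz) _ hys))] at e4
  have e5 := congrArg φ.toFun e4
  change φ _ = φ _ at e5
  have hw : φ (G.E (star n * m * star m * l)) ≠ 0 := by
    intro h
    rw [d_mulL φ hxz, d_mulR φ hzy, h, zero_mul, mul_zero,
      d_mulL φ (G.D_mul _ hxz _ hxD), d_mulL φ hxz, d_mulL φ hxs, hz1, d_herm,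
      d_mulR φ hys, d_mulL φ hyD, hz1, d_herm] at e5
    exact absurd e5.symm (by
      simp only [mul_one]
      exact mul_ne_zero (mul_ne_zero (star_ne_zero.2 h1) h1)
        (mul_ne_zero h2 (star_ne_zero.2 h2)))
  have e6 : (star n * m * star m * l) * (star l * l) =
      (star n * l) * (star l * (m * star m) * l) := by
    have hc : (m * star m) * (l * star l) = (l * star l) * (m * star m) :=
      hG _ (mulstar_mem G hm) _ (mulstar_mem G hl)
    calc (star n * m * star m * l) * (star l * l)
        = star n * ((m * star m) * (l * star l)) * l := by noncomm_ring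
      _ = star n * ((l * star l) * (m * star m)) * l := by rw [hc]
      _ = (star n * l) * (star l * (m * star m) * l) := by noncomm_ring
  have e7 := congrArg G.E e6
  have hD := G.N_conj l hl _ (mulstar_mem G hm)
  rw [e_mulR G (G.N_norm l hl), e_mulR G hD] at e7
  have e8 := congrArg φ.toFun e7
  change φ _ = φ _ at e8
  rw [d_mulR φ (G.N_norm l hl), d_mulR φ hD] at e8
  intro h
  rw [h, zero_mul] at e8
  exact mul_ne_zero hw h3 e8

theorem van' (hG : G.Comm) {n : A} (hn : n ∈ G.N) (h : ¬ Iso G φ n) : φ n = 0 := by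
  by_cases h0 : φ (star n * n) = 0
  · exact pt_null φ h0
  · obtain ⟨ψ, hψ⟩ := d_move φ hG hn h0
    have h1 : ∃ c ∈ G.D, φ (star n * c * n) ≠ φ c * φ (star n * n) := by
      by_contra hcon
      push Not at hcon
      exact h ⟨hn, h0, hcon⟩
    obtain ⟨c, hc, hne⟩ := h1
    have hcs := G.D_star c hc
    have h2 : φ (star (c * n - ψ c • n) * (c * n - ψ c • n)) = 0 := by
      have e : star (c * n - ψ c • n) * (c * n - ψ c • n) =
          star n * (star c * c) * n - ψ c • (star n * star c * n) -
            star (ψ c) • (star n * c * n) + (star (ψ c) * ψ c) • (star n * n) := by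
        rw [star_sub, star_mul, star_smul, sub_mul, mul_sub, mul_sub, smul_mul_assoc,
          smul_mul_assoc, mul_smul_comm, mul_smul_comm, smul_smul]
        simp only [mul_assoc]
        abel
      rw [e, map_add, map_sub, map_sub, map_smul, map_smul, map_smul, ← hψ, ← hψ, ← hψ,
        d_mulL ψ hcs, d_herm]
      simp only [smul_eq_mul]
      ring
    have h3 := pt_null φ h2
    rw [map_sub, map_smul, d_mulL φ hc, smul_eq_mul] at h3
    have h4 : ψ c ≠ φ c := by
      intro h4
      exact hne (by rw [← hψ, h4])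
    have h5 : (φ c - ψ c) * φ n = 0 := by linear_combination h3
    rcases mul_eq_zero.1 h5 with h6 | h6
    · exact absurd (sub_eq_zero.1 h6).symm h4
    · exact h6

end

/-- NF. -/
theorem nf : S_NF := by
  intro A _ G hG
  exact
    { mulL := fun φ c hc b => d_mulL φ hc b
      mulR := fun φ c hc b => d_mulR φ hc b
      null := fun φ b h => pt_null φ h
      cs0 := fun φ a b h => ⟨pt_zero φ h a, pt_zero' φ h a⟩
      left := fun φ a y h => pt_left φ a y h
      move := fun φ n hn h => d_move φ hG hn h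
      zero := fun c hc h => d_zero hG hc h
      exact := fun y hy h => by
        have := d_zero hG hy h
        exact (CStarRing.star_mul_self_eq_zero_iff y).1 this
      iso_D := fun φ x hx h => iso_D' φ hx h
      iso_mul := fun φ n m hn hm => iso_mul' φ hn hm
      iso_star := fun φ n hn => iso_star' φ hn
      iso_val := fun φ n hn => iso_val' φ hn
      iso_comm := fun φ n hn c hc => iso_comm' φ hn hc
      iso_cancel := fun φ k n hk hn hkn => iso_cancel' φ hG hk hn hkn
      eps := fun φ n hn h => eps' φ hG hn h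
      eps_iso := fun φ n m hn hm h => eps_iso' φ hG hn hm h
      eps_left := fun φ n hn m hm h => eps_left' φ hG hn hm h
      eps_symm := fun φ n _ m _ h => eps_symm' φ h
      eps_trans := fun φ n hn m hm l hl h1 h2 h3 => eps_trans' φ hG hn hm hl h1 h2 h3
      van := fun φ n hn h => van' φ hG hn h }

end Pool.Agent.Helper68.Ucg
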